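import Mathlib

/-! Piecewise linear order automorphisms of the line with dyadic data. -/

namespace Spr

open Filter Topology Set

/-- The group of order automorphisms of the real line. -/
abbrev G := ℝ ≃o ℝ

/-- Dyadic rationals. -/
def Dy (d : ℝ) : Prop := ∃ (n : ℕ) (m : ℤ), d * 2 ^ n = m

theorem Dy.int (m : ℤ) : Dy (m : ℝ) := ⟨0, m, by simp⟩
theorem Dy.nat (m : ℕ) : Dy (m : ℝ) := by simpa using Dy.int (m : ℤ)
theorem Dy.zero : Dy 0 := by simpa using Dy.int 0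
theorem Dy.one : Dy 1 := by simpa using Dy.int 1
theorem Dy.two : Dy 2 := by simpa using Dy.int 2

theorem Dy.add {a b : ℝ} (ha : Dy a) (hb : Dy b) : Dy (a + b) := by
  obtain ⟨n, m, h⟩ := ha
  obtain ⟨n', m', h'⟩ := hb
  refine ⟨n + n', m * 2 ^ n' + m' * 2 ^ n, ?_⟩
  push_cast
  rw [← h, ← h', pow_add]
  ring

theorem Dy.mul {a b : ℝ} (ha : Dy a) (hb : Dy b) : Dy (a * b) := by
  obtain ⟨n, m, h⟩ := ha
  obtain ⟨n', m', h'⟩ := hb
  refine ⟨n + n', m * m', ?_⟩
  push_cast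
  rw [← h, ← h', pow_add]
  ring

theorem Dy.neg {a : ℝ} (ha : Dy a) : Dy (-a) := by
  obtain ⟨n, m, h⟩ := ha
  refine ⟨n, -m, ?_⟩
  push_cast
  rw [← h]
  ring

theorem Dy.sub {a b : ℝ} (ha : Dy a) (hb : Dy b) : Dy (a - b) := by
  rw [sub_eq_add_neg]
  exact ha.add hb.neg

theorem Dy.zpow (k : ℤ) : Dy ((2 : ℝ) ^ k) := by
  obtain ⟨n, rfl | rfl⟩ := k.eq_nat_or_neg
  · refine ⟨0, 2 ^ n, ?_⟩
    push_cast
    simp
  · refine ⟨n, 1, ?_⟩
    push_cast
    rw [zpow_neg, zpow_natCast]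
    field_simp

theorem Dy.half : Dy (1 / 2) := by
  have := Dy.zpow (-1)
  rw [zpow_neg, zpow_one] at this
  simpa using this

theorem Dy.div2 {a : ℝ} (ha : Dy a) : Dy (a / 2) := by
  have := ha.mul Dy.half
  rwa [mul_one_div] at this

/-- `f` agrees eventually along `l` with an affine map with dyadic data. -/
def AffOn (f : ℝ → ℝ) (l : Filter ℝ) : Prop :=
  ∃ (k : ℤ) (d : ℝ), Dy d ∧ ∀ᶠ u in l, f u = 2 ^ k * u + d

theorem AffOn.comp {f g : ℝ → ℝ} {l l' : Filter ℝ} (hf : AffOn f l') (hg : AffOn g l)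
    (h : Tendsto g l l') : AffOn (fun t => f (g t)) l := by
  obtain ⟨k, d, hd, hk⟩ := hf
  obtain ⟨k', d', hd', hk'⟩ := hg
  refine ⟨k + k', 2 ^ k * d' + d, ((Dy.zpow k).mul hd').add hd, ?_⟩
  filter_upwards [h.eventually hk, hk'] with u h1 h2
  rw [h1, h2, zpow_add₀ two_ne_zero]
  ring

theorem AffOn.congr {f g : ℝ → ℝ} {l : Filter ℝ} (hf : AffOn f l) (h : ∀ᶠ u in l, g u = f u) :
    AffOn g l := by
  obtain ⟨k, d, hd, hk⟩ := hf
  refine ⟨k, d, hd, ?_⟩
  filter_upwards [hk, h] with u h1 h2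
  rw [h2, h1]

theorem AffOn.mono {f : ℝ → ℝ} {l l' : Filter ℝ} (hf : AffOn f l) (h : l' ≤ l) : AffOn f l' := by
  obtain ⟨k, d, hd, hk⟩ := hf
  exact ⟨k, d, hd, h hk⟩

theorem AffOn.inv {f : G} {l l' : Filter ℝ} (hf : AffOn f l) (h : Tendsto (f⁻¹ : G) l' l) :
    AffOn (f⁻¹ : G) l' := by
  obtain ⟨k, d, hd, hk⟩ := hf
  refine ⟨-k, -(2 ^ (-k) * d), ((Dy.zpow (-k)).mul hd).neg, ?_⟩
  filter_upwards [h.eventually hk] with u h1
  rw [RelIso.apply_inv_self] at h1
  have h2 : (2 : ℝ) ^ k ≠ 0 := zpow_ne_zero _ two_ne_zero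
  rw [zpow_neg]
  field_simp
  linarith

/-- Piecewise linear with dyadic data. -/
def PL (f : ℝ → ℝ) : Prop :=
  ∀ t, AffOn f (𝓝[≥] t) ∧ AffOn f (𝓝[≤] t) ∧ (¬ Dy t → AffOn f (𝓝 t))

theorem tend_ge (g : G) (t : ℝ) : Tendsto g (𝓝[≥] t) (𝓝[≥] (g t)) :=
  (OrderIso.continuous g).continuousWithinAt.tendsto_nhdsWithin
    (fun _ hu => (OrderIso.monotone g) hu)

theorem tend_le (g : G) (t : ℝ) : Tendsto g (𝓝[≤] t) (𝓝[≤] (g t)) :=
  (OrderIso.continuous g).continuousWithinAt.tendsto_nhdsWithin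
    (fun _ hu => (OrderIso.monotone g) hu)

theorem tend_nhds (g : G) (t : ℝ) : Tendsto g (𝓝 t) (𝓝 (g t)) :=
  (OrderIso.continuous g).continuousAt

theorem PL.dy {f : ℝ → ℝ} (hf : PL f) {t : ℝ} (ht : Dy t) : Dy (f t) := by
  obtain ⟨k, d, hd, hk⟩ := (hf t).1
  rw [hk.self_of_nhdsWithin (mem_Ici.2 le_rfl)]
  exact ((Dy.zpow k).mul ht).add hd

theorem PL.ndy {f : ℝ → ℝ} (hf : PL f) {t : ℝ} (ht : ¬ Dy t) : ¬ Dy (f t) := by
  obtain ⟨k, d, hd, hk⟩ := (hf t).1
  intro h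
  apply ht
  have h1 := hk.self_of_nhdsWithin (mem_Ici.2 le_rfl)
  have h2 : (2 : ℝ) ^ k ≠ 0 := zpow_ne_zero _ two_ne_zero
  have h3 : t = 2 ^ (-k) * (f t - d) := by
    rw [h1, zpow_neg]
    field_simp
    ring
  rw [h3]
  exact (Dy.zpow _).mul (h.sub hd)

/-- The group of piecewise linear order automorphisms of the line with dyadic data. -/
def P : Subgroup G where
  carrier := {f | PL f}
  mul_mem' := by
    intro f g hf hg t
    refine ⟨(hf (g t)).1.comp (hg t).1 (tend_ge g t), (hf (g t)).2.1.comp (hg t).2.1 (tend_le g t),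
      fun h => ((hf (g t)).2.2 (hg.ndy h)).comp ((hg t).2.2 h) (tend_nhds g t)⟩
  one_mem' := by
    intro t
    have h : ∀ l : Filter ℝ, AffOn (1 : G) l := fun l => ⟨0, 0, Dy.zero, by
      filter_upwards with u
      simp⟩
    exact ⟨h _, h _, fun _ => h _⟩
  inv_mem' := by
    intro f hf t
    have h1 := tend_ge f⁻¹ t
    have h2 := tend_le f⁻¹ t
    have h3 := tend_nhds f⁻¹ t
    refine ⟨(hf (f⁻¹ t)).1.inv h1, (hf (f⁻¹ t)).2.1.inv h2, fun h => ?_⟩
    refine ((hf (f⁻¹ t)).2.2 ?_).inv h3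
    intro h4
    apply h
    have := hf.dy h4
    rwa [RelIso.apply_inv_self] at this

theorem P_dy {f : G} (hf : f ∈ P) {t : ℝ} (ht : Dy t) : Dy (f t) := PL.dy hf ht

/-- The affine maps. -/
noncomputable def aff (k : ℤ) (d : ℝ) : G where
  toFun t := 2 ^ k * t + d
  invFun t := 2 ^ (-k) * (t - d)
  left_inv t := by
    have h2 : (2 : ℝ) ^ k ≠ 0 := zpow_ne_zero _ two_ne_zero
    rw [zpow_neg]
    field_simp
    ring
  right_inv t := by
    have h2 : (2 : ℝ) ^ k ≠ 0 := zpow_ne_zero _ two_ne_zero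
    rw [zpow_neg]
    field_simp
    ring
  map_rel_iff' := by
    intro a b
    have h2 : (0 : ℝ) < (2 : ℝ) ^ k := zpow_pos two_pos _
    show 2 ^ k * a + d ≤ 2 ^ k * b + d ↔ a ≤ b
    rw [add_le_add_iff_right, mul_le_mul_iff_right₀ h2]

theorem aff_apply (k : ℤ) (d t : ℝ) : aff k d t = 2 ^ k * t + d := rfl

theorem aff_mem (k : ℤ) {d : ℝ} (hd : Dy d) : aff k d ∈ P := by
  intro t
  have h : ∀ l : Filter ℝ, AffOn (aff k d) l := fun l => ⟨k, d, hd, by
    filter_upwards with u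
    rfl⟩
  exact ⟨h _, h _, fun _ => h _⟩

theorem mem_P_of_paste {q f g : G} {c : ℝ} (h1 : ∀ t ≤ c, q t = f t) (h2 : ∀ t, c ≤ t → q t = g t)
    (hf : f ∈ P) (hg : g ∈ P) (hc : Dy c) : q ∈ P := by
  intro t
  rcases lt_trichotomy t c with h | h | h
  · have h3 : ∀ᶠ u in 𝓝 t, q u = f u := by
      filter_upwards [Iio_mem_nhds h] with u hu
      exact h1 u (le_of_lt hu)
    exact ⟨(hf t).1.congr (h3.filter_mono nhdsWithin_le_nhds),
      (hf t).2.1.congr (h3.filter_mono nhdsWithin_le_nhds), fun h4 => ((hf t).2.2 h4).congr h3⟩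
  · subst h
    refine ⟨(hg t).1.congr ?_, (hf t).2.1.congr ?_, fun h => absurd hc h⟩
    · filter_upwards [self_mem_nhdsWithin] with u hu
      exact h2 u hu
    · filter_upwards [self_mem_nhdsWithin] with u hu
      exact h1 u hu
  · have h3 : ∀ᶠ u in 𝓝 t, q u = g u := by
      filter_upwards [Ioi_mem_nhds h] with u hu
      exact h2 u (le_of_lt hu)
    exact ⟨(hg t).1.congr (h3.filter_mono nhdsWithin_le_nhds),
      (hg t).2.1.congr (h3.filter_mono nhdsWithin_le_nhds), fun h4 => ((hg t).2.2 h4).congr h3⟩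

theorem paste_exists (f g : G) (c : ℝ) (h : f c = g c) :
    ∃ q : G, (∀ t ≤ c, q t = f t) ∧ (∀ t, c ≤ t → q t = g t) ∧
      (f ∈ P → g ∈ P → Dy c → q ∈ P) := by
  classical
  let F : ℝ → ℝ := fun t => if t ≤ c then f t else g t
  have hF1 : ∀ t ≤ c, F t = f t := fun t ht => if_pos ht
  have hF2 : ∀ t, c ≤ t → F t = g t := by
    intro t ht
    rcases ht.eq_or_lt with h1 | h1
    · subst h1
      rw [hF1 c le_rfl, h]
    · exact if_neg (not_le.2 h1)
  have hmono : StrictMono F := by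
    intro s t hst
    rcases le_total t c with h1 | h1
    · rw [hF1 s (hst.le.trans h1), hF1 t h1]
      exact f.strictMono hst
    · rcases le_total s c with h2 | h2
      · rw [hF1 s h2, hF2 t h1]
        rcases h2.eq_or_lt with h3 | h3
        · subst h3
          rw [h]
          exact g.strictMono hst
        · calc f s < f c := f.strictMono h3
            _ = g c := h
            _ ≤ g t := g.monotone h1
      · rw [hF2 s h2, hF2 t h1]
        exact g.strictMono hst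
  have hsurj : Function.Surjective F := by
    intro v
    rcases le_total v (f c) with h1 | h1
    · refine ⟨f.symm v, ?_⟩
      rw [hF1 _ (by rw [OrderIso.symm_apply_le]; exact h1), OrderIso.apply_symm_apply]
    · refine ⟨g.symm v, ?_⟩
      rw [hF2 _ (by rw [OrderIso.le_symm_apply, ← h]; exact h1), OrderIso.apply_symm_apply]
  have hq : ∀ t, (StrictMono.orderIsoOfSurjective F hmono hsurj) t = F t := fun t => rfl
  refine ⟨StrictMono.orderIsoOfSurjective F hmono hsurj, fun t ht => ?_, fun t ht => ?_,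
    fun hf hg hc => mem_P_of_paste (f := f) (g := g) (c := c) (fun t ht => ?_) (fun t ht => ?_)
      hf hg hc⟩
  · rw [hq, hF1 t ht]
  · rw [hq, hF2 t ht]
  · rw [hq, hF1 t ht]
  · rw [hq, hF2 t ht]

end Spr
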