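import Pool.Agent.X276.Spr.A

namespace Spr

open Filter Topology Set

theorem aff0 (d t : ℝ) : aff 0 d t = t + d := by
  rw [aff_apply, zpow_zero, one_mul]

theorem aff1 (d t : ℝ) : aff 1 d t = 2 * t + d := by
  rw [aff_apply, zpow_one]

theorem affm1 (d t : ℝ) : aff (-1) d t = t / 2 + d := by
  rw [aff_apply, zpow_neg, zpow_one]
  ring

theorem mul_ap (f g : G) (t : ℝ) : (f * g) t = f (g t) := rfl

theorem one_ap (t : ℝ) : (1 : G) t = t := rfl

theorem inv_ap_self (f : G) (t : ℝ) : f⁻¹ (f t) = t := RelIso.inv_apply_self f t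

theorem ap_inv_self (f : G) (t : ℝ) : f (f⁻¹ t) = t := RelIso.apply_inv_self f t

theorem inv_eq_iff (f : G) {s t : ℝ} : f⁻¹ s = t ↔ s = f t := by
  constructor
  · intro h
    rw [← h, ap_inv_self]
  · intro h
    rw [h, inv_ap_self]

theorem ext' {f g : G} (h : ∀ t, f t = g t) : f = g := OrderIso.ext (funext h)

theorem lt_iff (f : G) {s t : ℝ} : f s < f t ↔ s < t := f.lt_iff_lt
theorem le_iff (f : G) {s t : ℝ} : f s ≤ f t ↔ s ≤ t := f.le_iff_le

theorem e_exists (c : ℝ) : ∃ q : G, (∀ t ≤ c, q t = t) ∧ (∀ t, c ≤ t → t ≤ c + 1 → q t = 2 * t - c) ∧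
    (∀ t, c + 1 ≤ t → q t = t + 1) ∧ (Dy c → q ∈ P) := by
  obtain ⟨q1, h1, h2, h3⟩ := paste_exists 1 (aff 1 (-c)) c (by rw [aff1, one_ap]; ring)
  obtain ⟨q, k1, k2, k3⟩ := paste_exists q1 (aff 0 1) (c + 1) (by
    rw [h2 _ (by linarith), aff0, aff1]; ring)
  refine ⟨q, fun t ht => ?_, fun t ht ht' => ?_, fun t ht => ?_, fun hc => ?_⟩
  · rw [k1 t (by linarith), h1 t ht, one_ap]
  · rw [k1 t ht', h2 t ht, aff1]; ring
  · rw [k2 t ht, aff0]
  · exact k3 (h3 P.one_mem (aff_mem _ hc.neg) hc) (aff_mem _ Dy.one) (hc.add Dy.one)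

/-- The basic expanding map at `c`. -/
noncomputable def e (c : ℝ) : G := (e_exists c).choose

theorem e_le {c t : ℝ} (h : t ≤ c) : e c t = t := (e_exists c).choose_spec.1 t h
theorem e_mid {c t : ℝ} (h : c ≤ t) (h' : t ≤ c + 1) : e c t = 2 * t - c :=
  (e_exists c).choose_spec.2.1 t h h'
theorem e_ge {c t : ℝ} (h : c + 1 ≤ t) : e c t = t + 1 := (e_exists c).choose_spec.2.2.1 t h
theorem e_mem {c : ℝ} (h : Dy c) : e c ∈ P := (e_exists c).choose_spec.2.2.2 h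

theorem e_gt {c t : ℝ} (h : c < t) : t < e c t := by
  rcases le_total t (c + 1) with h1 | h1
  · rw [e_mid h.le h1]; linarith
  · rw [e_ge h1]; linarith

/-- `f` is the identity outside the interval from `a` to `b`. -/
def Supp (f : G) (a b : ℝ) : Prop := (∀ t ≤ a, f t = t) ∧ (∀ t, b ≤ t → f t = t)

theorem Supp.mono {f : G} {a b a' b' : ℝ} (h : Supp f a b) (ha : a' ≤ a) (hb : b ≤ b') :
    Supp f a' b' := ⟨fun t ht => h.1 t (ht.trans ha), fun t ht => h.2 t (hb.trans ht)⟩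

theorem Supp.mul {f g : G} {a b : ℝ} (hf : Supp f a b) (hg : Supp g a b) : Supp (f * g) a b :=
  ⟨fun t ht => by rw [mul_ap, hg.1 t ht, hf.1 t ht], fun t ht => by rw [mul_ap, hg.2 t ht, hf.2 t ht]⟩

theorem Supp.inv {f : G} {a b : ℝ} (hf : Supp f a b) : Supp f⁻¹ a b :=
  ⟨fun t ht => by rw [inv_eq_iff, hf.1 t ht], fun t ht => by rw [inv_eq_iff, hf.2 t ht]⟩

theorem Supp.one {a b : ℝ} : Supp 1 a b := ⟨fun _ _ => rfl, fun _ _ => rfl⟩

theorem Supp.conj {f : G} {a b : ℝ} (hf : Supp f a b) (w : G) : Supp (w * f * w⁻¹) (w a) (w b) := by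
  refine ⟨fun t ht => ?_, fun t ht => ?_⟩
  · have h1 : w⁻¹ t ≤ a := by
      rw [← le_iff w, ap_inv_self]; exact ht
    rw [mul_ap, mul_ap, hf.1 _ h1, ap_inv_self]
  · have h1 : b ≤ w⁻¹ t := by
      rw [← le_iff w, ap_inv_self]; exact ht
    rw [mul_ap, mul_ap, hf.2 _ h1, ap_inv_self]

theorem Supp.maps {f : G} {a b t : ℝ} (hf : Supp f a b) (h1 : a ≤ t) (h2 : t ≤ b) :
    a ≤ f t ∧ f t ≤ b := by
  constructor
  · rw [← hf.1 a le_rfl, le_iff]; exact h1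
  · rw [← hf.2 b le_rfl, le_iff]; exact h2

theorem Supp.conj_mem {f w : G} {a b : ℝ} (h : Supp f (w⁻¹ a) (w⁻¹ b)) :
    Supp (w * f * w⁻¹) a b := by
  have := h.conj w
  rwa [ap_inv_self, ap_inv_self] at this

/-- Conjugates by two maps agreeing on the interval of the support agree. -/
theorem conj_congr {A B k : G} {a b : ℝ} (hk : Supp k a b) (h : ∀ t, a ≤ t → t ≤ b → A t = B t) :
    A * k * A⁻¹ = B * k * B⁻¹ := by
  rcases lt_or_ge b a with hab | hab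
  · have : k = 1 := by
      apply ext'
      intro t
      rcases le_total t a with h1 | h1
      · rw [hk.1 t h1, one_ap]
      · rw [hk.2 t (by linarith), one_ap]
    subst this
    simp
  have hA := hk.conj A
  have hB := hk.conj B
  have e1 := h a le_rfl hab
  have e2 := h b hab le_rfl
  apply ext'
  intro t
  rcases le_total t (A a) with h1 | h1
  · rw [hA.1 t h1, hB.1 t (by rwa [← e1])]
  · rcases le_total (A b) t with h2 | h2
    · rw [hA.2 t h2, hB.2 t (by rwa [← e2])]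
    · -- inside
      have g1 : a ≤ A⁻¹ t := by rw [← le_iff A, ap_inv_self]; exact h1
      have g2 : A⁻¹ t ≤ b := by rw [← le_iff A, ap_inv_self]; exact h2
      have g3 : A⁻¹ t = B⁻¹ t := by
        symm
        rw [inv_eq_iff, ← h _ g1 g2, ap_inv_self]
      have g4 := hk.maps g1 g2
      rw [mul_ap, mul_ap, mul_ap, mul_ap, ← g3, h _ g4.1 g4.2]

theorem comm_of_disj {f g : G} {a b c d : ℝ} (hf : Supp f a b) (hg : Supp g c d) (h : b ≤ c) :
    f * g = g * f := by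
  rcases lt_or_ge b a with hab | hab
  · have : f = 1 := by
      apply ext'
      intro t
      rcases le_total t a with h1 | h1
      · rw [hf.1 t h1, one_ap]
      · rw [hf.2 t (by linarith), one_ap]
    rw [this, one_mul, mul_one]
  apply ext'
  intro t
  rw [mul_ap, mul_ap]
  rcases le_total t b with h1 | h1
  · rw [hg.1 t (by linarith)]
    have h2 : f t ≤ b := by
      rw [← hf.2 b le_rfl, le_iff]; exact h1
    rw [hg.1 _ (by linarith)]
  · rw [hf.2 t h1]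
    rcases le_total c t with h3 | h3
    · have h4 : c ≤ g t := by
        rw [← hg.1 c le_rfl, le_iff]; exact h3
      rw [hf.2 _ (by linarith)]
    · rw [hg.1 t h3, hf.2 t h1]

/-! Interpolation. -/

theorem interp_nat (L : ℕ) : ∃ h ∈ P, h 0 = 0 ∧ h 1 = (L : ℝ) + 1 := by
  induction L with
  | zero => exact ⟨1, P.one_mem, rfl, by simp⟩
  | succ L ih =>
    obtain ⟨h, hP, h0, h1⟩ := ih
    refine ⟨e L * h, P.mul_mem (e_mem (Dy.nat L)) hP, ?_, ?_⟩
    · rw [mul_ap, h0, e_le (Nat.cast_nonneg L)]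
    · rw [mul_ap, h1, e_ge le_rfl]
      push_cast
      ring

theorem interp_dy {s : ℝ} (hs : Dy s) (hpos : 0 < s) : ∃ h ∈ P, h 0 = 0 ∧ h 1 = s := by
  obtain ⟨n, m, hm⟩ := hs
  have hm' : 0 < m := by
    have : (0 : ℝ) < m := by rw [← hm]; positivity
    exact_mod_cast this
  obtain ⟨L, hL⟩ := Int.eq_ofNat_of_zero_le (show 0 ≤ m - 1 by omega)
  obtain ⟨h, hP, h0, h1⟩ := interp_nat L
  refine ⟨aff (-n) 0 * h, P.mul_mem (aff_mem _ Dy.zero) hP, ?_, ?_⟩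
  · rw [mul_ap, h0, aff_apply]; simp
  · rw [mul_ap, h1, aff_apply]
    have h3 : (m : ℝ) = (L : ℝ) + 1 := by
      have : m = (L : ℤ) + 1 := by
        omega
      rw [this]; push_cast; ring
    rw [← h3, ← hm, zpow_neg, zpow_natCast]
    field_simp
    ring

theorem interp {a b c d : ℝ} (ha : Dy a) (hb : Dy b) (hc : Dy c) (hd : Dy d) (hab : a < b)
    (hcd : c < d) : ∃ h ∈ P, h a = c ∧ h b = d := by
  obtain ⟨u, uP, u0, u1⟩ := interp_dy (hb.sub ha) (sub_pos.2 hab)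
  obtain ⟨v, vP, v0, v1⟩ := interp_dy (hd.sub hc) (sub_pos.2 hcd)
  refine ⟨aff 0 c * v * u⁻¹ * aff 0 (-a), P.mul_mem (P.mul_mem (P.mul_mem (aff_mem _ hc) vP)
    (P.inv_mem uP)) (aff_mem _ ha.neg), ?_, ?_⟩
  · have h1 : u⁻¹ 0 = 0 := by rw [inv_eq_iff, u0]
    rw [mul_ap, mul_ap, mul_ap, aff0 (-a) a, add_neg_cancel, h1, v0, aff0, zero_add]
  · have h1 : u⁻¹ (b - a) = 1 := by rw [inv_eq_iff, u1]
    rw [mul_ap, mul_ap, mul_ap, aff0 (-a) b, ← sub_eq_add_neg, h1, v1, aff0]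
    ring

/-! A map of a given four-piece shape. -/

theorem four_exists (f1 f2 f3 : G) (c0 c1 c2 c3 : ℝ) (h01 : c0 ≤ c1) (h12 : c1 ≤ c2) (h23 : c2 ≤ c3)
    (k0 : c0 = f1 c0) (k1 : f1 c1 = f2 c1) (k2 : f2 c2 = f3 c2) (k3 : f3 c3 = c3) :
    ∃ q : G, (∀ t ≤ c0, q t = t) ∧ (∀ t, c0 ≤ t → t ≤ c1 → q t = f1 t) ∧
      (∀ t, c1 ≤ t → t ≤ c2 → q t = f2 t) ∧ (∀ t, c2 ≤ t → t ≤ c3 → q t = f3 t) ∧
      (∀ t, c3 ≤ t → q t = t) ∧
      (f1 ∈ P → f2 ∈ P → f3 ∈ P → Dy c0 → Dy c1 → Dy c2 → Dy c3 → q ∈ P) := by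
  obtain ⟨q1, a1, a2, a3⟩ := paste_exists 1 f1 c0 (by rw [one_ap]; exact k0)
  obtain ⟨q2, b1, b2, b3⟩ := paste_exists q1 f2 c1 (by rw [a2 _ h01]; exact k1)
  obtain ⟨q3, d1, d2, d3⟩ := paste_exists q2 f3 c2 (by rw [b2 _ h12]; exact k2)
  obtain ⟨q4, g1, g2, g3⟩ := paste_exists q3 1 c3 (by rw [d2 _ h23, one_ap]; exact k3)
  refine ⟨q4, fun t ht => ?_, fun t ht ht' => ?_, fun t ht ht' => ?_, fun t ht ht' => ?_,
    fun t ht => ?_, fun hf1 hf2 hf3 hc0 hc1 hc2 hc3 => ?_⟩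
  · rw [g1 t (by linarith), d1 t (by linarith), b1 t (by linarith), a1 t ht, one_ap]
  · rw [g1 t (by linarith), d1 t (by linarith), b1 t (by linarith), a2 t ht]
  · rw [g1 t (by linarith), d1 t (by linarith), b2 t ht]
  · rw [g1 t (by linarith), d2 t ht]
  · rw [g2 t ht, one_ap]
  · exact g3 (d3 (b3 (a3 P.one_mem hf1 hc0) hf2 hc1) hf3 hc2) P.one_mem hc3

end Spr
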