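import Pool.Agent.X276.Spr.A2

/-! Standard pieces on small dyadic intervals. -/

namespace Spr

open Filter Topology Set

/-- `f` maps the level `n` interval number `j` affinely onto a standard interval. -/
def Std (f : ℝ → ℝ) (n : ℕ) (j : ℤ) : Prop :=
  ∃ (m : ℕ) (i : ℤ), ∀ t : ℝ, (j : ℝ) ≤ 2 ^ n * t → 2 ^ n * t ≤ j + 1 →
    f t = (i + (2 ^ n * t - j)) / 2 ^ m

theorem std_of_aff {f : ℝ → ℝ} {s : Set ℝ} {k : ℤ} {d : ℝ} (hd : Dy d)
    (h : ∀ u ∈ s, f u = 2 ^ k * u + d) :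
    ∃ n0 : ℕ, ∀ n ≥ n0, ∀ j : ℤ, (∀ t : ℝ, (j : ℝ) ≤ 2 ^ n * t → 2 ^ n * t ≤ j + 1 → t ∈ s) →
      Std f n j := by
  obtain ⟨N, D, hN⟩ := hd
  refine ⟨k.toNat + N, fun n hn j hj => ?_⟩
  obtain ⟨m, hm⟩ := Int.eq_ofNat_of_zero_le (show 0 ≤ (n : ℤ) - k by omega)
  obtain ⟨r, hr⟩ := Nat.exists_eq_add_of_le (show N ≤ m by omega)
  refine ⟨m, j + 2 ^ r * D, fun t h1 h2 => ?_⟩
  rw [h t (hj t h1 h2)]
  have e1 : k = (n : ℤ) - m := by
    omega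
  have e2 : (2 : ℝ) ^ k = 2 ^ n / 2 ^ m := by
    rw [e1, zpow_sub₀ two_ne_zero, zpow_natCast, zpow_natCast]
  rw [e2]
  push_cast
  rw [← hN, hr, pow_add]
  field_simp
  ring

theorem std_local {f : G} (hf : f ∈ P) (t : ℝ) : ∃ s ∈ 𝓝 t, ∃ n0 : ℕ, ∀ n ≥ n0, ∀ j : ℤ,
    (∃ u ∈ s, (j : ℝ) ≤ 2 ^ n * u ∧ 2 ^ n * u ≤ j + 1) → Std f n j := by
  by_cases ht : Dy t
  · obtain ⟨k, d, hd, hk⟩ := (hf t).1
    obtain ⟨k', d', hd', hk'⟩ := (hf t).2.1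
    obtain ⟨N, T, hT⟩ := ht
    rw [eventually_nhdsWithin_iff, Metric.eventually_nhds_iff] at hk hk'
    obtain ⟨r, hr, hk⟩ := hk
    obtain ⟨r', hr', hk'⟩ := hk'
    obtain ⟨n1, hn1⟩ := std_of_aff (f := f) (s := {u | dist u t < r ∧ t ≤ u}) hd
      (fun u hu => hk hu.1 hu.2)
    obtain ⟨n2, hn2⟩ := std_of_aff (f := f) (s := {u | dist u t < r' ∧ u ≤ t}) hd'
      (fun u hu => hk' hu.1 hu.2)
    have hq : 0 < min r r' / 2 := by positivity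
    obtain ⟨n3, hn3⟩ := exists_pow_lt_of_lt_one hq (show (1 / 2 : ℝ) < 1 by norm_num)
    refine ⟨Metric.ball t (min r r' / 2), Metric.ball_mem_nhds _ hq, n1 + n2 + n3 + N,
      fun n hn j hj => ?_⟩
    obtain ⟨u, hu, hu1, hu2⟩ := hj
    rw [Metric.mem_ball, Real.dist_eq, abs_lt] at hu
    have p2 : (0 : ℝ) < 2 ^ n := by positivity
    have h3 : (1 : ℝ) ≤ 2 ^ n * (min r r' / 2) := by
      have : (1 / 2 : ℝ) ^ n ≤ (1 / 2) ^ n3 :=
        pow_le_pow_of_le_one (by norm_num) (by norm_num) (by omega)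
      have h4 : ((2 : ℝ) ^ n)⁻¹ < min r r' / 2 := by
        have h5 : ((2 : ℝ) ^ n)⁻¹ = (1 / 2) ^ n := by rw [one_div, inv_pow]
        rw [h5]
        exact lt_of_le_of_lt this hn3
      rw [inv_lt_iff_one_lt_mul₀ p2] at h4
      linarith
    have hd1 : ∀ v : ℝ, (j : ℝ) ≤ 2 ^ n * v → 2 ^ n * v ≤ j + 1 → |v - t| < min r r' := by
      intro v hv1 hv2
      have h4 : 2 ^ n * (v - u) ≤ 2 ^ n * (min r r' / 2) := by
        rw [mul_sub]; linarith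
      have h5 : 2 ^ n * (u - v) ≤ 2 ^ n * (min r r' / 2) := by
        rw [mul_sub]; linarith
      have h6 := le_of_mul_le_mul_left h4 p2
      have h7 := le_of_mul_le_mul_left h5 p2
      rw [abs_lt]
      constructor <;> linarith [hu.1, hu.2]
    -- the point t is a grid point
    obtain ⟨q, hq'⟩ := Nat.exists_eq_add_of_le (show N ≤ n by omega)
    have hgrid : 2 ^ n * t = ((2 ^ q * T : ℤ) : ℝ) := by
      push_cast
      rw [← hT, hq', pow_add]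
      ring
    rcases le_or_gt (2 ^ q * T) j with h8 | h8
    · refine hn1 n (by omega) j (fun v hv1 hv2 => ⟨?_, ?_⟩)
      · rw [Real.dist_eq]
        exact lt_of_lt_of_le (hd1 v hv1 hv2) (min_le_left _ _)
      · have h9 : 2 ^ n * t ≤ j := by
          rw [hgrid]; exact_mod_cast h8
        exact le_of_mul_le_mul_left (h9.trans hv1) p2
    · refine hn2 n (by omega) j (fun v hv1 hv2 => ⟨?_, ?_⟩)
      · rw [Real.dist_eq]
        exact lt_of_lt_of_le (hd1 v hv1 hv2) (min_le_right _ _)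
      · have h9 : (j : ℝ) + 1 ≤ 2 ^ n * t := by
          rw [hgrid]; exact_mod_cast h8
        exact le_of_mul_le_mul_left (hv2.trans h9) p2
  · obtain ⟨k, d, hd, hk⟩ := (hf t).2.2 ht
    rw [Metric.eventually_nhds_iff] at hk
    obtain ⟨r, hr, hk⟩ := hk
    obtain ⟨n1, hn1⟩ := std_of_aff (f := f) (s := {u | dist u t < r}) hd (fun u hu => hk hu)
    have hq : 0 < r / 2 := by positivity
    obtain ⟨n3, hn3⟩ := exists_pow_lt_of_lt_one hq (show (1 / 2 : ℝ) < 1 by norm_num)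
    refine ⟨Metric.ball t (r / 2), Metric.ball_mem_nhds _ hq, n1 + n3, fun n hn j hj => ?_⟩
    obtain ⟨u, hu, hu1, hu2⟩ := hj
    rw [Metric.mem_ball, Real.dist_eq, abs_lt] at hu
    have p2 : (0 : ℝ) < 2 ^ n := by positivity
    have h3 : (1 : ℝ) ≤ 2 ^ n * (r / 2) := by
      have : (1 / 2 : ℝ) ^ n ≤ (1 / 2) ^ n3 :=
        pow_le_pow_of_le_one (by norm_num) (by norm_num) (by omega)
      have h4 : ((2 : ℝ) ^ n)⁻¹ < r / 2 := by
        have h5 : ((2 : ℝ) ^ n)⁻¹ = (1 / 2) ^ n := by rw [one_div, inv_pow]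
        rw [h5]
        exact lt_of_le_of_lt this hn3
      rw [inv_lt_iff_one_lt_mul₀ p2] at h4
      linarith
    refine hn1 n (by omega) j (fun v hv1 hv2 => ?_)
    have h4 : 2 ^ n * (v - u) ≤ 2 ^ n * (r / 2) := by
      rw [mul_sub]; linarith
    have h5 : 2 ^ n * (u - v) ≤ 2 ^ n * (r / 2) := by
      rw [mul_sub]; linarith
    have h6 := le_of_mul_le_mul_left h4 p2
    have h7 := le_of_mul_le_mul_left h5 p2
    show dist v t < r
    rw [Real.dist_eq, abs_lt]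
    constructor <;> linarith [hu.1, hu.2]

theorem std_compact {f : G} (hf : f ∈ P) (R : ℝ) : ∃ n0 : ℕ, ∀ n ≥ n0, ∀ j : ℤ,
    (∃ u ∈ Icc 0 R, (j : ℝ) ≤ 2 ^ n * u ∧ 2 ^ n * u ≤ j + 1) → Std f n j := by
  refine IsCompact.induction_on (isCompact_Icc (a := (0 : ℝ)) (b := R))
    (p := fun s => ∃ n0 : ℕ, ∀ n ≥ n0, ∀ j : ℤ,
      (∃ u ∈ s, (j : ℝ) ≤ 2 ^ n * u ∧ 2 ^ n * u ≤ j + 1) → Std f n j) ?_ ?_ ?_ ?_
  · exact ⟨0, fun n _ j hj => by
      obtain ⟨u, hu, _⟩ := hj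
      exact absurd hu (Set.notMem_empty u)⟩
  · rintro s t hst ⟨n0, h⟩
    exact ⟨n0, fun n hn j ⟨u, hu, h'⟩ => h n hn j ⟨u, hst hu, h'⟩⟩
  · rintro s t ⟨n0, h⟩ ⟨n1, h1⟩
    refine ⟨n0 + n1, fun n hn j ⟨u, hu, h'⟩ => ?_⟩
    rcases hu with hu | hu
    · exact h n (by omega) j ⟨u, hu, h'⟩
    · exact h1 n (by omega) j ⟨u, hu, h'⟩
  · intro t _
    obtain ⟨s, hs, n0, h⟩ := std_local hf t
    exact ⟨s, mem_nhdsWithin_of_mem_nhds hs, n0, h⟩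

end Spr
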