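import Pool.Agent.X276.Spr.B

namespace Spr

open Filter Topology Set

/-- The group generated by the two expanding maps at `0` and `1`. -/
def Dhat : Subgroup G := Subgroup.closure {e 0, e 1}

theorem e0_mem : e 0 ∈ Dhat := Subgroup.subset_closure (by simp)
theorem e1_mem : e 1 ∈ Dhat := Subgroup.subset_closure (by simp)

theorem e_rel {c : ℝ} (hc : 1 ≤ c) : e (c + 1) * e 0 = e 0 * e c := by
  apply ext'
  intro t
  rw [mul_ap, mul_ap]
  rcases le_total t 0 with h0 | h0
  · rw [e_le h0, e_le (by linarith), e_le (by linarith : t ≤ c), e_le h0]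
  · rcases le_total t 1 with h1 | h1
    · rw [e_le (by linarith : t ≤ c), e_mid h0 (by linarith), e_le (by linarith)]
    · have h2 : e 0 t = t + 1 := e_ge (by linarith)
      rw [h2]
      rcases le_total t c with h3 | h3
      · rw [e_le (by linarith : t + 1 ≤ c + 1), e_le h3, h2]
      · rcases le_total t (c + 1) with h4 | h4
        · rw [e_mid (by linarith : c + 1 ≤ t + 1) (by linarith), e_mid h3 h4,
            e_ge (by linarith)]
          ring
        · rw [e_ge (by linarith : c + 1 + 1 ≤ t + 1), e_ge h4, e_ge (by linarith)]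

theorem e_conj {c : ℝ} (hc : 1 ≤ c) : e (c + 1) = e 0 * e c * (e 0)⁻¹ := by
  rw [← e_rel hc, mul_inv_cancel_right]

theorem e_nat_mem (j : ℕ) : e j ∈ Dhat := by
  induction j with
  | zero => simpa using e0_mem
  | succ j ih =>
    rcases Nat.eq_zero_or_pos j with h | h
    · subst h
      simpa using e1_mem
    · have h1 : (1 : ℝ) ≤ j := by exact_mod_cast h
      push_cast
      rw [e_conj h1]
      exact Dhat.mul_mem (Dhat.mul_mem e0_mem ih) (Dhat.inv_mem e0_mem)

theorem zstd_mem (E : ℕ) : ∀ (f : G) (m : ℕ → ℕ) (i : ℕ → ℤ) (N : ℕ), (∀ t ≤ 0, f t = t) →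
    (∀ j : ℕ, ∀ t : ℝ, (j : ℝ) ≤ t → t ≤ j + 1 → f t = (i j + (t - j)) / 2 ^ m j) →
    (∀ j ≥ N, m j = 0) → (∀ j : ℕ, N ≤ j → f j = j - E) → f ∈ Dhat := by
  induction E with
  | zero =>
    intro f m i N hf0 hf hm hE
    have hs1 : ∀ j : ℕ, f j = i j / 2 ^ m j := by
      intro j
      rw [hf j j le_rfl (by linarith)]
      simp
    have hs2 : ∀ j : ℕ, f ((j : ℝ) + 1) = f j + 1 / 2 ^ m j := by
      intro j
      rw [hf j _ (by linarith) le_rfl, hs1 j]
      ring
    have hmono : Monotone (fun j : ℕ => (j : ℝ) - f j) := by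
      apply monotone_nat_of_le_succ
      intro j
      have h1 : (1 : ℝ) / 2 ^ m j ≤ 1 := by
        rw [div_le_one (by positivity)]
        exact one_le_pow₀ (by norm_num)
      push_cast
      rw [hs2 j]
      linarith
    have hzero : ∀ j : ℕ, f j = j := by
      intro j
      have h1 := hmono (Nat.zero_le j)
      have h2 := hmono (le_max_left j N)
      have h3 := hE (max j N) (le_max_right j N)
      simp only [Nat.cast_zero, sub_zero] at h1 h2 h3
      rw [hf0 0 le_rfl] at h1
      rw [h3] at h2
      linarith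
    have hmz : ∀ j : ℕ, m j = 0 := by
      intro j
      have h1 := hs2 j
      have h2 := hzero (j + 1)
      push_cast at h2
      rw [h2, hzero j] at h1
      by_contra hne
      have h3 : (1 : ℝ) / 2 ^ m j < 1 := by
        rw [div_lt_one (by positivity)]
        exact one_lt_pow₀ (by norm_num) hne
      linarith
    have : f = 1 := by
      apply ext'
      intro t
      rw [one_ap]
      rcases le_total t 0 with h0 | h0
      · exact hf0 t h0
      · have h1 := Nat.floor_le h0
        have h2 := (Nat.lt_floor_add_one t).le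
        rw [hf _ t h1 h2]
        have h3 := hs1 ⌊t⌋₊
        rw [hzero, hmz] at h3
        rw [hmz]
        simp only [pow_zero, div_one] at h3 ⊢
        linarith
    rw [this]
    exact Dhat.one_mem
  | succ E ih =>
    intro f m i N hf0 hf hm hE
    have hs1 : ∀ j : ℕ, f j = i j / 2 ^ m j := by
      intro j
      rw [hf j j le_rfl (by linarith)]
      simp
    have hs2 : ∀ j : ℕ, f ((j : ℝ) + 1) = (i j + 1) / 2 ^ m j := by
      intro j
      rw [hf j _ (by linarith) le_rfl]
      ring
    obtain ⟨M, hM, j1, hj1⟩ : ∃ M, (∀ j, m j ≤ M) ∧ ∃ j, m j = M := by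
      refine ⟨(Finset.range (N + 1)).sup m, fun j => ?_, ?_⟩
      · rcases lt_or_ge j N with h | h
        · exact Finset.le_sup (by simp; omega)
        · rw [hm j h]; exact Nat.zero_le _
      · obtain ⟨j, _, hj⟩ := Finset.exists_mem_eq_sup (Finset.range (N + 1)) ⟨0, by simp⟩ m
        exact ⟨j, hj.symm⟩
    have hMpos : 0 < M := by
      rcases Nat.eq_zero_or_pos M with h | h
      · exfalso
        have h1 : ∀ j : ℕ, f j = j := by
          intro j
          induction j with
          | zero => simpa using hf0 0 le_rfl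
          | succ j ihj =>
            have h2 := hM j
            have h3 : m j = 0 := by omega
            have h4 := hs1 j
            have h5 := hs2 j
            rw [h3, pow_zero, div_one] at h4 h5
            push_cast
            rw [h5, ← h4, ihj]
        have h2 := hE N le_rfl
        rw [h1 N] at h2
        push_cast at h2
        have : (0 : ℝ) ≤ E := Nat.cast_nonneg E
        linarith
      · exact h
    classical
    have hex : ∃ j, m j = M := ⟨j1, hj1⟩
    obtain ⟨j0, hj0, hmin⟩ : ∃ j0, m j0 = M ∧ ∀ j < j0, m j < M := by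
      refine ⟨Nat.find hex, Nat.find_spec hex, fun j hj => ?_⟩
      exact lt_of_le_of_ne (hM j) (Nat.find_min hex hj)
    have hj0N : j0 < N := by
      by_contra h
      have := hm j0 (by omega)
      omega
    -- even
    have heven : ∃ q : ℤ, i j0 = 2 * q := by
      rcases Nat.eq_zero_or_pos j0 with h | h
      · refine ⟨0, ?_⟩
        have h1 := hs1 j0
        rw [h, Nat.cast_zero, hf0 0 le_rfl] at h1
        have h2 : ((i 0 : ℤ) : ℝ) = 0 := by
          rcases div_eq_zero_iff.1 h1.symm with h3 | h3
          · exact h3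
          · exact absurd h3 (by positivity)
        rw [h]
        have h3 : i 0 = 0 := by exact_mod_cast h2
        rw [h3]; norm_num
      · obtain ⟨j', rfl⟩ := Nat.exists_eq_succ_of_ne_zero h.ne'
        have h1 := hs1 (j' + 1)
        have h2 := hs2 j'
        have h3 := hmin j' (by omega)
        obtain ⟨r, hr⟩ := Nat.exists_eq_add_of_lt h3
        push_cast at h1
        simp only [Nat.succ_eq_add_one] at hj0
        rw [h2, hj0, hr] at h1
        refine ⟨(i j' + 1) * 2 ^ r, ?_⟩
        have h4 : ((i (j' + 1) : ℤ) : ℝ) = 2 * ((i j' + 1) * 2 ^ r) := by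
          rw [pow_succ, pow_add] at h1
          field_simp at h1
          linarith
        exact_mod_cast h4
    obtain ⟨q, hq⟩ := heven
    have hnext : m (j0 + 1) = M ∧ i (j0 + 1) = i j0 + 1 := by
      have h1 := hs1 (j0 + 1)
      have h2 := hs2 j0
      push_cast at h1
      rw [h2, hj0] at h1
      rcases (hM (j0 + 1)).eq_or_lt with h3 | h3
      · refine ⟨h3, ?_⟩
        rw [h3] at h1
        have h4 : ((i (j0 + 1) : ℤ) : ℝ) = i j0 + 1 := by
          field_simp at h1
          linarith
        exact_mod_cast h4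
      · exfalso
        obtain ⟨r, hr⟩ := Nat.exists_eq_add_of_lt h3
        have h4 : ((i j0 + 1 : ℤ) : ℝ) = 2 * (i (j0 + 1) * 2 ^ r) := by
          rw [hr, pow_succ, pow_add] at h1
          field_simp at h1
          push_cast
          linarith
        have h5 : i j0 + 1 = 2 * (i (j0 + 1) * 2 ^ r) := by exact_mod_cast h4
        rw [hq] at h5
        omega
    obtain ⟨M', rfl⟩ := Nat.exists_eq_succ_of_ne_zero hMpos.ne'
    have hkey : f * e j0 ∈ Dhat := by
      refine ih (f * e j0) (fun j => if j < j0 then m j else if j = j0 then M' else m (j + 1))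
        (fun j => if j < j0 then i j else if j = j0 then q else i (j + 1)) N ?_ ?_ ?_ ?_
      · intro t ht
        have h1 : (0 : ℝ) ≤ j0 := Nat.cast_nonneg _
        rw [mul_ap, e_le (by linarith), hf0 t ht]
      · intro j t h1 h2
        rw [mul_ap]
        rcases lt_trichotomy j j0 with h | h | h
        · have h3 : (j : ℝ) + 1 ≤ j0 := by exact_mod_cast h
          simp only [if_pos h]
          rw [e_le (by linarith)]
          exact hf j t h1 h2
        · subst h
          simp only [lt_irrefl, if_false, if_true]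
          rw [e_mid h1 h2]
          rcases le_total (2 * t - j) (j + 1) with h3 | h3
          · rw [hf j _ (by linarith) h3, hj0, hq, pow_succ]
            push_cast
            field_simp
            ring
          · have h4 := hf (j + 1) (2 * t - j) (by push_cast; linarith) (by push_cast; linarith)
            rw [h4, hnext.1, hnext.2, hq, pow_succ]
            push_cast
            field_simp
            ring
        · have h3 : (j0 : ℝ) + 1 ≤ j := by exact_mod_cast h
          have h4 : ¬ j < j0 := by omega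
          have h5 : ¬ j = j0 := by omega
          simp only [if_neg h4, if_neg h5]
          rw [e_ge (by linarith)]
          have h6 := hf (j + 1) (t + 1) (by push_cast; linarith) (by push_cast; linarith)
          rw [h6]
          push_cast
          ring
      · intro j hj
        have h4 : ¬ j < j0 := by omega
        have h5 : ¬ j = j0 := by omega
        simp only [if_neg h4, if_neg h5]
        exact hm (j + 1) (by omega)
      · intro j hj
        have h3 : (j0 : ℝ) + 1 ≤ j := by exact_mod_cast (by omega : j0 + 1 ≤ j)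
        rw [mul_ap, e_ge h3]
        have h4 := hE (j + 1) (by omega)
        push_cast at h4
        rw [h4]
        ring
    have h1 : f = f * e j0 * (e j0)⁻¹ := by rw [mul_inv_cancel_right]
    rw [h1]
    exact Dhat.mul_mem hkey (Dhat.inv_mem (e_nat_mem j0))

theorem gen_half {f : G} (hf : f ∈ P) {R : ℝ} (hs : Supp f 0 R) : f ∈ Dhat := by
  obtain ⟨R', hR'⟩ := exists_nat_ge R
  have hs' : Supp f 0 R' := hs.mono le_rfl hR'
  obtain ⟨n, hn⟩ := std_compact hf R'
  have hn := hn n le_rfl
  have p2 : (0 : ℝ) < 2 ^ n := by positivity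
  have p1 : (1 : ℝ) ≤ 2 ^ n := one_le_pow₀ (by norm_num)
  have hR0 : (0 : ℝ) ≤ R' := Nat.cast_nonneg _
  obtain ⟨q1, a1, a2, _⟩ := paste_exists 1 (aff (-n) 0) 0 (by rw [aff_apply, one_ap]; simp)
  obtain ⟨w, b1, b2, _⟩ := paste_exists q1 (aff 0 (R' - R' * 2 ^ n)) (R' * 2 ^ n) (by
    rw [a2 _ (by positivity), aff0, aff_apply, zpow_neg, zpow_natCast]
    field_simp
    ring)
  have w0 : ∀ t ≤ 0, w t = t := by
    intro t ht
    have : (0 : ℝ) ≤ R' * 2 ^ n := by positivity
    rw [b1 t (by linarith), a1 t ht, one_ap]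
  have w1 : ∀ t : ℝ, 0 ≤ t → t ≤ R' * 2 ^ n → w t = t / 2 ^ n := by
    intro t ht ht'
    rw [b1 t ht', a2 t ht, aff_apply, zpow_neg, zpow_natCast]
    field_simp
    ring
  have w2 : ∀ t : ℝ, R' * 2 ^ n ≤ t → w t = t + (R' - R' * 2 ^ n) := by
    intro t ht
    rw [b2 t ht, aff0]
  -- both maps are standard
  have key : ∀ g : G, (∀ t ≤ 0, g t = t) → (∀ t, (R' : ℝ) ≤ t → g t = t) →
      (∀ j : ℕ, j < R' * 2 ^ n → Std g n j) → g * w ∈ Dhat := by
    intro g hg0 hg1 hg2
    have h1 : ∀ j : ℕ, ∃ (m : ℕ) (i : ℤ), (∀ t : ℝ, (j : ℝ) ≤ t → t ≤ j + 1 →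
        (g * w) t = (i + (t - j)) / 2 ^ m) ∧ (R' * 2 ^ n ≤ j → m = 0) := by
      intro j
      rcases lt_or_ge j (R' * 2 ^ n) with h | h
      · obtain ⟨m, i, hmi⟩ := hg2 j h
        refine ⟨m, i, fun t h3 h4 => ?_, fun h5 => absurd h (by omega)⟩
        have h5 : (j : ℝ) + 1 ≤ R' * 2 ^ n := by exact_mod_cast h
        have h6 : (0 : ℝ) ≤ j := Nat.cast_nonneg _
        rw [mul_ap, w1 t (by linarith) (by linarith)]
        have h7 : 2 ^ n * (t / 2 ^ n) = t := by field_simp
        rw [hmi (t / 2 ^ n) (by rw [h7]; exact_mod_cast h3) (by rw [h7]; exact_mod_cast h4), h7]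
        push_cast
        rfl
      · refine ⟨0, (j : ℤ) + (R' - R' * 2 ^ n), fun t h3 h4 => ?_, fun _ => rfl⟩
        have h5 : (R' * 2 ^ n : ℝ) ≤ j := by exact_mod_cast h
        rw [mul_ap, w2 t (by linarith), hg1 _ (by linarith)]
        push_cast
        ring
    choose m i hmi hm0 using h1
    refine zstd_mem (R' * 2 ^ n - R') (g * w) m i (R' * 2 ^ n) ?_ hmi hm0 ?_
    · intro t ht
      rw [mul_ap, w0 t ht, hg0 t ht]
    · intro j hj
      have h5 : (R' * 2 ^ n : ℝ) ≤ j := by exact_mod_cast hj
      rw [mul_ap, w2 _ h5, hg1 _ (by linarith)]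
      rw [Nat.cast_sub (Nat.le_mul_of_pos_right _ (by positivity))]
      push_cast
      ring
  have k1 : (1 : G) * w ∈ Dhat := by
    refine key 1 (fun t _ => rfl) (fun t _ => rfl) (fun j _ => ⟨n, j, fun t _ _ => ?_⟩)
    rw [one_ap]
    push_cast
    field_simp
    ring
  have k2 : f * w ∈ Dhat := by
    refine key f hs'.1 hs'.2 (fun j hj => hn j ?_)
    have h5 : (j : ℝ) + 1 ≤ R' * 2 ^ n := by exact_mod_cast hj
    have h6 : (0 : ℝ) ≤ j := Nat.cast_nonneg _
    refine ⟨j / 2 ^ n, ⟨by positivity, ?_⟩, ?_, ?_⟩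
    · rw [div_le_iff₀ p2]; linarith
    · rw [mul_div_cancel₀ _ p2.ne']
      push_cast
      exact le_rfl
    · rw [mul_div_cancel₀ _ p2.ne']
      push_cast
      linarith
  rw [one_mul] at k1
  have h1 : f = f * w * w⁻¹ := by rw [mul_inv_cancel_right]
  rw [h1]
  exact Dhat.mul_mem k2 (Dhat.inv_mem k1)

end Spr
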