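import Pool.Agent.X276.Spr.B2

namespace Spr

open Filter Topology Set

/-! Two explicit elements. -/

theorem a_exists : ∃ a : G, (∀ t ≤ 1, a t = t) ∧ (∀ t, 1 ≤ t → t ≤ 2 → a t = 2 * t - 1) ∧
    (∀ t, 2 ≤ t → t ≤ 4 → a t = t / 2 + 2) ∧ (∀ t, 4 ≤ t → a t = t) ∧ a ∈ P := by
  obtain ⟨q, h1, h2, h3, h4, h5, h6⟩ := four_exists (aff 1 (-1)) (aff (-1) 2) (aff (-1) 2) 1 2 4 4
    (by norm_num) (by norm_num) (by norm_num) (by rw [aff1]; norm_num)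
    (by rw [aff1, affm1]; norm_num) rfl (by rw [affm1]; norm_num)
  refine ⟨q, h1, fun t a b => ?_, fun t a b => ?_, h5, h6 (aff_mem _ Dy.one.neg) (aff_mem _ Dy.two)
    (aff_mem _ Dy.two) Dy.one Dy.two (Dy.nat 4) (Dy.nat 4)⟩
  · rw [h2 t a b, aff1]; ring
  · rw [h3 t a b, affm1]

theorem b_exists : ∃ b : G, (∀ t ≤ 2, b t = t) ∧ (∀ t, 2 ≤ t → t ≤ 3 → b t = 2 * t - 2) ∧
    (∀ t, 3 ≤ t → t ≤ 5 → b t = t + 1) ∧ (∀ t, 5 ≤ t → t ≤ 7 → b t = (t + 7) / 2) ∧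
    (∀ t, 7 ≤ t → b t = t) ∧ b ∈ P := by
  obtain ⟨q, h1, h2, h3, h4, h5, h6⟩ := four_exists (aff 1 (-2)) (aff 0 1) (aff (-1) (7 / 2)) 2 3 5 7
    (by norm_num) (by norm_num) (by norm_num) (by rw [aff1]; norm_num)
    (by rw [aff1, aff0]; norm_num) (by rw [aff0, affm1]; norm_num) (by rw [affm1]; norm_num)
  refine ⟨q, h1, fun t a b => ?_, fun t a b => ?_, fun t a b => ?_, h5,
    h6 (aff_mem _ Dy.two.neg) (aff_mem _ Dy.one)
    (aff_mem _ (Dy.nat 7).div2) Dy.two (Dy.nat 3) (Dy.nat 5) (Dy.nat 7)⟩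
  · rw [h2 t a b, aff1]; ring
  · rw [h3 t a b, aff0]
  · rw [h4 t a b, affm1]; ring

/-- The commutator of the two explicit elements. -/
theorem ab_rel : ∃ a ∈ P, ∃ b ∈ P, Supp a 1 7 ∧ Supp b 1 7 ∧
    a * b * a⁻¹ * b⁻¹ = e 3 * (e 2)⁻¹ := by
  obtain ⟨a, a1, a2, a3, a4, aP⟩ := a_exists
  obtain ⟨b, b1, b2, b3, b4, b5, bP⟩ := b_exists
  refine ⟨a, aP, b, bP, ⟨a1, fun t ht => a4 t (by linarith)⟩,
    ⟨fun t ht => b1 t (by linarith), b5⟩, ?_⟩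
  have key : ∀ t, ∃ v, e 3 v = a (b t) ∧ e 2 v = b (a t) := by
    intro t
    rcases le_total t 1 with h | h
    · refine ⟨t, ?_, ?_⟩
      · rw [e_le (by linarith), b1 t (by linarith), a1 t h]
      · rw [e_le (by linarith), a1 t h, b1 t (by linarith)]
    rcases le_total t 2 with h' | h'
    · refine ⟨2 * t - 1, ?_, ?_⟩
      · rw [e_le (by linarith), b1 t h', a2 t h h']
      · rw [a2 t h h']
        rcases le_total (2 * t - 1) 2 with h3 | h3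
        · rw [e_le h3, b1 _ h3]
        · rw [e_mid h3 (by linarith), b2 _ h3 (by linarith)]
    rcases le_total t 3 with h2 | h2
    · refine ⟨t / 2 + 2, ?_, ?_⟩
      · rw [b2 t h' h2, a3 _ (by linarith) (by linarith), e_mid (by linarith) (by linarith)]
        ring
      · rw [a3 t h' (by linarith), b3 _ (by linarith) (by linarith), e_ge (by linarith)]
    rcases le_total t 4 with h3 | h3
    · refine ⟨t / 2 + 2, ?_, ?_⟩
      · rw [b3 t h2 (by linarith), a4 _ (by linarith), e_mid (by linarith) (by linarith)]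
        ring
      · rw [a3 t h' (by linarith), b3 _ (by linarith) (by linarith), e_ge (by linarith)]
    rcases le_total t 5 with h4 | h4
    · refine ⟨t, ?_, ?_⟩
      · rw [b3 t (by linarith) h4, a4 _ (by linarith), e_ge (by linarith)]
      · rw [a4 t h3, b3 t (by linarith) h4, e_ge (by linarith)]
    rcases le_total t 7 with h5 | h5
    · refine ⟨(t + 7) / 2 - 1, ?_, ?_⟩
      · rw [b4 t h4 h5, a4 _ (by linarith), e_ge (by linarith)]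
        ring
      · rw [a4 t h3, b4 t h4 h5, e_ge (by linarith)]
        ring
    · refine ⟨t - 1, ?_, ?_⟩
      · rw [b5 t h5, a4 _ (by linarith), e_ge (by linarith)]
        ring
      · rw [a4 t h3, b5 t h5, e_ge (by linarith)]
        ring
  have h : (e 3)⁻¹ * (a * b) = (e 2)⁻¹ * (b * a) := by
    apply ext'
    intro t
    obtain ⟨v, hv1, hv2⟩ := key t
    rw [mul_ap, mul_ap, mul_ap, mul_ap, ← hv1, ← hv2, inv_ap_self, inv_ap_self]
  have h2 : a * b = e 3 * ((e 2)⁻¹ * (b * a)) := by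
    rw [← h]
    group
  rw [h2]
  group

theorem decomp (M : Subgroup G) (hN : ∀ w ∈ Dhat, ∀ f ∈ M, w * f * w⁻¹ ∈ M)
    (hc : e 0 * e 1 * (e 0)⁻¹ * (e 1)⁻¹ ∈ M) {f : G} (hf : f ∈ Dhat) :
    ∃ i j : ℤ, f * ((e 0) ^ i * (e 1) ^ j)⁻¹ ∈ M := by
  have hDN : Dhat ≤ Subgroup.normalizer (M : Set G) := Subgroup.le_normalizer_iff.2 hN
  let N := Subgroup.normalizer (M : Set G)
  let pr := QuotientGroup.mk' (M.subgroupOf N)
  let E0 : N := ⟨e 0, hDN e0_mem⟩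
  let E1 : N := ⟨e 1, hDN e1_mem⟩
  have hmk : ∀ x y : N, pr x = pr y ↔ (x : G)⁻¹ * y ∈ M := by
    intro x y
    have h1 : pr x = pr y ↔ x⁻¹ * y ∈ M.subgroupOf N := QuotientGroup.eq
    rw [h1, Subgroup.mem_subgroupOf]
    rfl
  have hcomm : Commute (pr E0) (pr E1) := by
    show pr E0 * pr E1 = pr E1 * pr E0
    rw [← map_mul, ← map_mul, hmk]
    have h1 := M.inv_mem (hN (e 1 * e 0)⁻¹ (Dhat.inv_mem (Dhat.mul_mem e1_mem e0_mem)) _ hc)
    have h2 : ((e 1 * e 0)⁻¹ * (e 0 * e 1 * (e 0)⁻¹ * (e 1)⁻¹) * (e 1 * e 0)⁻¹⁻¹)⁻¹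
        = (e 0 * e 1)⁻¹ * (e 1 * e 0) := by group
    rw [h2] at h1
    exact h1
  have main : ∀ f ∈ Dhat, ∃ hf : f ∈ N, ∃ i j : ℤ, pr ⟨f, hf⟩ = pr E0 ^ i * pr E1 ^ j := by
    intro f hf
    refine Subgroup.closure_induction (p := fun f _ => ∃ hf : f ∈ N, ∃ i j : ℤ,
      pr ⟨f, hf⟩ = pr E0 ^ i * pr E1 ^ j) ?_ ?_ ?_ ?_ hf
    · intro x hx
      rcases hx with hx | hx
      · subst hx
        exact ⟨hDN e0_mem, 1, 0, by rw [zpow_one, zpow_zero, mul_one]⟩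
      · rw [Set.mem_singleton_iff] at hx
        subst hx
        exact ⟨hDN e1_mem, 0, 1, by rw [zpow_one, zpow_zero, one_mul]⟩
    · exact ⟨N.one_mem, 0, 0, by
        rw [zpow_zero, zpow_zero, mul_one]
        exact map_one pr⟩
    · rintro x y _ _ ⟨hx, i, j, h1⟩ ⟨hy, i', j', h2⟩
      refine ⟨N.mul_mem hx hy, i + i', j + j', ?_⟩
      have h3 : pr ⟨x * y, N.mul_mem hx hy⟩ = pr ⟨x, hx⟩ * pr ⟨y, hy⟩ := by
        rw [← map_mul]
        rfl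
      rw [h3, h1, h2, zpow_add, zpow_add]
      have h4 : pr E1 ^ j * pr E0 ^ i' = pr E0 ^ i' * pr E1 ^ j :=
        (hcomm.symm.zpow_zpow j i').eq
      calc pr E0 ^ i * pr E1 ^ j * (pr E0 ^ i' * pr E1 ^ j')
          = pr E0 ^ i * (pr E1 ^ j * pr E0 ^ i') * pr E1 ^ j' := by group
        _ = _ := by rw [h4]; group
    · rintro x _ ⟨hx, i, j, h1⟩
      refine ⟨N.inv_mem hx, -i, -j, ?_⟩
      have h3 : pr ⟨x⁻¹, N.inv_mem hx⟩ = (pr ⟨x, hx⟩)⁻¹ := by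
        rw [← map_inv]
        rfl
      rw [h3, h1, mul_inv_rev, ← zpow_neg, ← zpow_neg]
      exact (hcomm.symm.zpow_zpow (-j) (-i)).eq
  obtain ⟨hfN, i, j, h⟩ := main f hf
  refine ⟨i, j, ?_⟩
  rw [← map_zpow, ← map_zpow, ← map_mul, hmk] at h
  have h1 : f⁻¹ * ((e 0) ^ i * (e 1) ^ j) ∈ M := by
    simpa [E0, E1] using h
  have h2 := hN f hf _ (M.inv_mem h1)
  have h3 : f * (f⁻¹ * ((e 0) ^ i * (e 1) ^ j))⁻¹ * f⁻¹ = f * ((e 0) ^ i * (e 1) ^ j)⁻¹ := by group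
  rwa [h3] at h2

end Spr
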