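import Pool.Agent.X276.Spr.C

namespace Spr

open Filter Topology Set

theorem dy_dense {a b : ℝ} (h : a < b) : ∃ c, Dy c ∧ a < c ∧ c < b := by
  obtain ⟨n, hn⟩ := exists_pow_lt_of_lt_one (sub_pos.2 h) (show (1 / 2 : ℝ) < 1 by norm_num)
  have p2 : (0 : ℝ) < 2 ^ n := by positivity
  have h5 : ((1 : ℝ) / 2) ^ n = 1 / 2 ^ n := by rw [div_pow, one_pow]
  rw [h5, div_lt_iff₀ p2] at hn
  refine ⟨(⌊a * 2 ^ n⌋ + 1) / 2 ^ n, ⟨n, ⌊a * 2 ^ n⌋ + 1, ?_⟩, ?_, ?_⟩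
  · rw [div_mul_cancel₀ _ p2.ne']
    push_cast
    rfl
  · rw [lt_div_iff₀ p2]
    exact Int.lt_floor_add_one _
  · rw [div_lt_iff₀ p2]
    have := Int.floor_le (a * 2 ^ n)
    nlinarith

/-- The stabilizer of a point. -/
def St (p : ℝ) : Subgroup G where
  carrier := {f | f p = p}
  mul_mem' := by
    intro f g hf hg
    show f (g p) = p
    rw [show g p = p from hg, show f p = p from hf]
  one_mem' := rfl
  inv_mem' := by
    intro f hf
    show f⁻¹ p = p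
    rw [inv_eq_iff]
    exact (show f p = p from hf).symm

theorem mem_St {f : G} {p : ℝ} : f ∈ St p ↔ f p = p := Iff.rfl

theorem fix_zpow {f : G} {t : ℝ} (h : f t = t) (j : ℤ) : (f ^ j) t = t :=
  (St t).zpow_mem h j

theorem pow_gt {f : G} {t : ℝ} (h : ∀ s, t ≤ s → s < f s) (n : ℕ) : t < (f ^ (n + 1)) t := by
  induction n with
  | zero => simpa using h t le_rfl
  | succ n ih =>
    rw [pow_succ', mul_ap]
    exact ih.trans (h _ ih.le)

theorem zpow_fix_zero {f : G} {t : ℝ} (h : ∀ s, t ≤ s → s < f s) {j : ℤ} (hj : (f ^ j) t = t) :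
    j = 0 := by
  obtain ⟨n, rfl | rfl⟩ := j.eq_nat_or_neg
  · rcases Nat.eq_zero_or_pos n with h1 | h1
    · rw [h1]; rfl
    · obtain ⟨m, rfl⟩ := Nat.exists_eq_succ_of_ne_zero h1.ne'
      have := pow_gt h m
      rw [zpow_natCast] at hj
      exact absurd hj this.ne'
  · rcases Nat.eq_zero_or_pos n with h1 | h1
    · rw [h1]; rfl
    · obtain ⟨m, rfl⟩ := Nat.exists_eq_succ_of_ne_zero h1.ne'
      have := pow_gt h m
      rw [zpow_neg, inv_eq_iff, zpow_natCast] at hj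
      exact absurd hj.symm this.ne'

theorem thm1 (M : Subgroup G) (hs : ∀ f ∈ M, ∃ a b, 0 < a ∧ Supp f a b)
    (h0 : ∀ f ∈ M, e 0 * f * (e 0)⁻¹ ∈ M) (h0' : ∀ f ∈ M, (e 0)⁻¹ * f * e 0 ∈ M)
    (h1 : ∀ f ∈ M, e 1 * f * (e 1)⁻¹ ∈ M) (h1' : ∀ f ∈ M, (e 1)⁻¹ * f * e 1 ∈ M)
    {g : G} (hg : g ∈ M) (hg1 : g ≠ 1) {h : G} (hP : h ∈ P) {a b : ℝ} (ha : 0 < a)
    (hh : Supp h a b) : h ∈ M := by
  have hN : ∀ w ∈ Dhat, ∀ f ∈ M, w * f * w⁻¹ ∈ M := by
    have h2 : ∀ w ∈ Dhat, (∀ f ∈ M, w * f * w⁻¹ ∈ M) ∧ (∀ f ∈ M, w⁻¹ * f * w ∈ M) := by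
      intro w hw
      refine Subgroup.closure_induction (p := fun w _ => (∀ f ∈ M, w * f * w⁻¹ ∈ M) ∧
        (∀ f ∈ M, w⁻¹ * f * w ∈ M)) ?_ ?_ ?_ ?_ hw
      · intro x hx
        rcases hx with hx | hx
        · subst hx
          exact ⟨h0, h0'⟩
        · rw [Set.mem_singleton_iff] at hx
          subst hx
          exact ⟨h1, h1'⟩
      · exact ⟨fun f hf => by simpa using hf, fun f hf => by simpa using hf⟩
      · rintro x y _ _ ⟨hx, hx'⟩ ⟨hy, hy'⟩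
        refine ⟨fun f hf => ?_, fun f hf => ?_⟩
        · have := hx _ (hy f hf)
          have e1 : x * (y * f * y⁻¹) * x⁻¹ = x * y * f * (x * y)⁻¹ := by group
          rwa [e1] at this
        · have := hy' _ (hx' f hf)
          have e1 : y⁻¹ * (x⁻¹ * f * x) * y = (x * y)⁻¹ * f * (x * y) := by group
          rwa [e1] at this
      · rintro x _ ⟨hx, hx'⟩
        exact ⟨fun f hf => by simpa using hx' f hf, fun f hf => by simpa using hx f hf⟩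
    exact fun w hw => (h2 w hw).1
  -- an element moving a point up
  obtain ⟨g, t0, hg, ht0⟩ : ∃ g : G, ∃ t0 : ℝ, g ∈ M ∧ t0 < g t0 := by
    have : ∃ t, g t ≠ t := by
      by_contra hcon
      push Not at hcon
      exact hg1 (ext' hcon)
    obtain ⟨t, ht⟩ := this
    rcases lt_or_gt_of_ne ht with h2 | h2
    · refine ⟨g⁻¹, t, M.inv_mem hg, ?_⟩
      rw [← lt_iff g, ap_inv_self]
      exact h2
    · exact ⟨g, t, hg, h2⟩
  have ht0pos : 0 < t0 := by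
    obtain ⟨a', b', ha', hab⟩ := hs g hg
    by_contra hcon
    rw [hab.1 t0 (by linarith)] at ht0
    exact lt_irrefl _ ht0
  obtain ⟨q, hqD, hq1, hq2⟩ := dy_dense ht0
  have hq3 : g⁻¹ q < t0 := by
    rw [← lt_iff g, ap_inv_self]
    exact hq2
  obtain ⟨p, hpD, hp1, hp2⟩ := dy_dense (max_lt hq3 ht0pos)
  have hp0 : 0 < p := (le_max_right _ _).trans_lt hp1
  have hp3 : q < g p := by
    have : g⁻¹ q < p := (le_max_left _ _).trans_lt hp1
    rw [← lt_iff g, ap_inv_self] at this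
    exact this
  have hpq : p < q := hp2.trans hq1
  have hcomm : ∀ u ∈ P, ∀ v ∈ P, Supp u p q → Supp v p q → u * v * u⁻¹ * v⁻¹ ∈ M := by
    intro u hu v hv hus hvs
    have huD : u ∈ Dhat := gen_half hu (hus.mono hp0.le le_rfl)
    have hvD : v ∈ Dhat := gen_half hv (hvs.mono hp0.le le_rfl)
    have hc : u * g * u⁻¹ * g⁻¹ ∈ M := M.mul_mem (hN u huD g hg) (M.inv_mem hg)
    have hs2 := (hus.inv).conj g
    have hcm := comm_of_disj hvs hs2 hp3.le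
    have h3 := M.mul_mem hc (hN v hvD _ (M.inv_mem hc))
    have e1 : u * g * u⁻¹ * g⁻¹ * (v * (u * g * u⁻¹ * g⁻¹)⁻¹ * v⁻¹)
        = u * ((g * u⁻¹ * g⁻¹) * v) * (g * u⁻¹ * g⁻¹)⁻¹ * u⁻¹ * v⁻¹ := by group
    rw [e1, ← hcm] at h3
    have e2 : u * (v * (g * u⁻¹ * g⁻¹)) * (g * u⁻¹ * g⁻¹)⁻¹ * u⁻¹ * v⁻¹ = u * v * u⁻¹ * v⁻¹ := by
      group
    rwa [e2] at h3
  -- move the interval from 1 to 7 into the interval from p to q
  obtain ⟨s, hsD, hs1, hs2⟩ := dy_dense (lt_min one_pos hp0)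
  obtain ⟨S, hS⟩ := exists_nat_gt (max 7 q)
  have hs3 : s < 1 := hs2.trans_le (min_le_left _ _)
  have hs4 : s < p := hs2.trans_le (min_le_right _ _)
  have hS1 : 7 < (S : ℝ) := (le_max_left _ _).trans_lt hS
  have hS2 : q < (S : ℝ) := (le_max_right _ _).trans_lt hS
  obtain ⟨k1, k1P, k1a, k1b⟩ := interp hsD Dy.one hsD hpD hs3 hs4
  obtain ⟨k2, k2P, k2a, k2b⟩ := interp Dy.one (Dy.nat 7) hpD hqD (by norm_num) hpq
  obtain ⟨k3, k3P, k3a, k3b⟩ := interp (Dy.nat 7) (Dy.nat S) hqD (Dy.nat S) hS1 hS2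
  have e7 : ((7 : ℕ) : ℝ) = 7 := by norm_num
  rw [e7] at k2b k3a
  obtain ⟨k, c1, c2, c3, c4, c5, c6⟩ := four_exists k1 k2 k3 s 1 7 S hs3.le (by norm_num) hS1.le
    k1a.symm (by rw [k1b, k2a]) (by rw [k2b, k3a]) k3b
  have kP : k ∈ P := c6 k1P k2P k3P hsD Dy.one (Dy.nat 7) (Dy.nat S)
  have kD : k ∈ Dhat := gen_half kP (R := S) ⟨fun t ht => c1 t (by linarith), c5⟩
  have hk1 : k 1 = p := by rw [c2 1 hs3.le le_rfl, k1b]
  have hk7 : k 7 = q := by rw [c3 7 (by norm_num) le_rfl, k2b]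
  obtain ⟨A, AP, B, BP, hA, hB, hAB⟩ := ab_rel
  have hA' := hA.conj k
  have hB' := hB.conj k
  rw [hk1, hk7] at hA' hB'
  have h4 := hcomm _ (P.mul_mem (P.mul_mem kP AP) (P.inv_mem kP)) _
    (P.mul_mem (P.mul_mem kP BP) (P.inv_mem kP)) hA' hB'
  have h5 := hN k⁻¹ (Dhat.inv_mem kD) _ h4
  have e3 : k⁻¹ * (k * A * k⁻¹ * (k * B * k⁻¹) * (k * A * k⁻¹)⁻¹ * (k * B * k⁻¹)⁻¹) * k⁻¹⁻¹
      = A * B * A⁻¹ * B⁻¹ := by group
  rw [e3, hAB] at h5
  have h6 := h0' _ h5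
  have e4 : e 3 = e 0 * e 2 * (e 0)⁻¹ := by
    have := e_conj (c := 2) (by norm_num)
    norm_num at this
    exact this
  have e5 : e 2 = e 0 * e 1 * (e 0)⁻¹ := by
    have := e_conj (c := 1) (by norm_num)
    norm_num at this
    exact this
  have e6 : (e 0)⁻¹ * (e 3 * (e 2)⁻¹) * e 0 = e 0 * e 1 * (e 0)⁻¹ * (e 1)⁻¹ := by
    rw [e4]
    have : (e 0)⁻¹ * (e 0 * e 2 * (e 0)⁻¹ * (e 2)⁻¹) * e 0
        = e 2 * (e 0)⁻¹ * (e 2)⁻¹ * e 0 := by group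
    rw [this, e5]
    group
  rw [e6] at h6
  have hD : h ∈ Dhat := gen_half hP (hh.mono ha.le le_rfl)
  obtain ⟨i, j, hij⟩ := decomp M hN h6 hD
  obtain ⟨a', b', ha', hm⟩ := hs _ hij
  have hi : i = 0 := by
    have ht1 : 0 < min a (min a' 1) := lt_min ha (lt_min ha' one_pos)
    have ht2 : min a (min a' 1) ≤ a := min_le_left _ _
    have ht3 : min a (min a' 1) ≤ a' := (min_le_right _ _).trans (min_le_left _ _)
    have ht4 : min a (min a' 1) ≤ 1 := (min_le_right _ _).trans (min_le_right _ _)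
    set t := min a (min a' 1) with ht
    have h7 : ((e 0) ^ i * (e 1) ^ j) t = t := by
      have h8 := hm.inv.1 t ht3
      have e7 : (h * ((e 0) ^ i * (e 1) ^ j)⁻¹)⁻¹ = (e 0) ^ i * (e 1) ^ j * h⁻¹ := by group
      rw [e7, mul_ap, hh.inv.1 t ht2] at h8
      exact h8
    rw [mul_ap, fix_zpow (e_le ht4)] at h7
    exact zpow_fix_zero (f := e 0) (fun s hs => e_gt (by linarith)) h7
  subst hi
  have hj : j = 0 := by
    have ht2 : b ≤ max b (max b' 2) := le_max_left _ _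
    have ht3 : b' ≤ max b (max b' 2) := (le_max_left _ _).trans (le_max_right _ _)
    have ht4 : (2 : ℝ) ≤ max b (max b' 2) := (le_max_right _ _).trans (le_max_right _ _)
    set t := max b (max b' 2) with ht
    have h7 : ((e 0) ^ (0 : ℤ) * (e 1) ^ j) t = t := by
      have h8 := hm.inv.2 t ht3
      have e7 : (h * ((e 0) ^ (0 : ℤ) * (e 1) ^ j)⁻¹)⁻¹ = (e 0) ^ (0 : ℤ) * (e 1) ^ j * h⁻¹ := by
        group
      rw [e7, mul_ap, hh.inv.2 t ht2] at h8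
      exact h8
    rw [zpow_zero, one_mul] at h7
    exact zpow_fix_zero (f := e 1) (fun s hs => e_gt (by linarith)) h7
  subst hj
  simpa using hij

end Spr
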