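import Pool.Agent.X276.Spr.C2

namespace Spr

open Filter Topology Set

theorem d1_exists : ∃ q : G, (∀ t ≤ 0, q t = t) ∧ (∀ t, 0 ≤ t → t ≤ 1 / 4 → q t = 2 * t) ∧
    (∀ t, 1 / 4 ≤ t → t ≤ 1 / 2 → q t = t + 1 / 4) ∧
    (∀ t, 1 / 2 ≤ t → t ≤ 1 → q t = t / 2 + 1 / 2) ∧ (∀ t, 1 ≤ t → q t = t) ∧ q ∈ P := by
  have D2 : Dy (1 / 2) := Dy.half
  have D4 : Dy (1 / 4) := by
    have := D2.mul D2
    norm_num at this ⊢
    exact this
  obtain ⟨q, h1, h2, h3, h4, h5, h6⟩ := four_exists (aff 1 0) (aff 0 (1 / 4)) (aff (-1) (1 / 2))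
    0 (1 / 4) (1 / 2) 1 (by norm_num) (by norm_num) (by norm_num) (by rw [aff1]; norm_num)
    (by rw [aff1, aff0]; norm_num) (by rw [aff0, affm1]; norm_num) (by rw [affm1]; norm_num)
  refine ⟨q, h1, fun t a b => ?_, fun t a b => ?_, fun t a b => ?_, h5, h6 (aff_mem _ Dy.zero)
    (aff_mem _ D4) (aff_mem _ D2) Dy.zero D4 D2 Dy.one⟩
  · rw [h2 t a b, aff1, add_zero]
  · rw [h3 t a b, aff0]
  · rw [h4 t a b, affm1]

/-- The first bounded map. -/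
noncomputable def d1 : G := d1_exists.choose

theorem d1_a {t : ℝ} (h : t ≤ 0) : d1 t = t := d1_exists.choose_spec.1 t h
theorem d1_b {t : ℝ} (h : 0 ≤ t) (h' : t ≤ 1 / 4) : d1 t = 2 * t :=
  d1_exists.choose_spec.2.1 t h h'
theorem d1_c {t : ℝ} (h : 1 / 4 ≤ t) (h' : t ≤ 1 / 2) : d1 t = t + 1 / 4 :=
  d1_exists.choose_spec.2.2.1 t h h'
theorem d1_d {t : ℝ} (h : 1 / 2 ≤ t) (h' : t ≤ 1) : d1 t = t / 2 + 1 / 2 :=
  d1_exists.choose_spec.2.2.2.1 t h h'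
theorem d1_e {t : ℝ} (h : 1 ≤ t) : d1 t = t := d1_exists.choose_spec.2.2.2.2.1 t h
theorem d1_P : d1 ∈ P := d1_exists.choose_spec.2.2.2.2.2

theorem d2_exists : ∃ q : G, (∀ t ≤ 1 / 2, q t = t) ∧
    (∀ t, 1 / 2 ≤ t → t ≤ 5 / 8 → q t = 2 * t - 1 / 2) ∧
    (∀ t, 5 / 8 ≤ t → t ≤ 3 / 4 → q t = t + 1 / 8) ∧
    (∀ t, 3 / 4 ≤ t → t ≤ 1 → q t = t / 2 + 1 / 2) ∧ (∀ t, 1 ≤ t → q t = t) ∧ q ∈ P := by
  have D2 : Dy (1 / 2) := Dy.half
  have D4 : Dy (1 / 4) := by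
    have := D2.mul D2
    norm_num at this ⊢
    exact this
  have D8 : Dy (1 / 8) := by
    have := D2.mul D4
    norm_num at this ⊢
    exact this
  have D58 : Dy (5 / 8) := by
    have := (Dy.nat 5).mul D8
    norm_num at this ⊢
    exact this
  have D34 : Dy (3 / 4) := by
    have := (Dy.nat 3).mul D4
    norm_num at this ⊢
    exact this
  obtain ⟨q, h1, h2, h3, h4, h5, h6⟩ := four_exists (aff 1 (-(1 / 2))) (aff 0 (1 / 8))
    (aff (-1) (1 / 2))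
    (1 / 2) (5 / 8) (3 / 4) 1 (by norm_num) (by norm_num) (by norm_num) (by rw [aff1]; norm_num)
    (by rw [aff1, aff0]; norm_num) (by rw [aff0, affm1]; norm_num) (by rw [affm1]; norm_num)
  refine ⟨q, h1, fun t a b => ?_, fun t a b => ?_, fun t a b => ?_, h5, h6 (aff_mem _ D2.neg)
    (aff_mem _ D8) (aff_mem _ D2) D2 D58 D34 Dy.one⟩
  · rw [h2 t a b, aff1]; ring
  · rw [h3 t a b, aff0]
  · rw [h4 t a b, affm1]

/-- The second bounded map. -/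
noncomputable def d2 : G := d2_exists.choose

theorem d2_a {t : ℝ} (h : t ≤ 1 / 2) : d2 t = t := d2_exists.choose_spec.1 t h
theorem d2_b {t : ℝ} (h : 1 / 2 ≤ t) (h' : t ≤ 5 / 8) : d2 t = 2 * t - 1 / 2 :=
  d2_exists.choose_spec.2.1 t h h'
theorem d2_c {t : ℝ} (h : 5 / 8 ≤ t) (h' : t ≤ 3 / 4) : d2 t = t + 1 / 8 :=
  d2_exists.choose_spec.2.2.1 t h h'
theorem d2_d {t : ℝ} (h : 3 / 4 ≤ t) (h' : t ≤ 1) : d2 t = t / 2 + 1 / 2 :=
  d2_exists.choose_spec.2.2.2.1 t h h'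
theorem d2_e {t : ℝ} (h : 1 ≤ t) : d2 t = t := d2_exists.choose_spec.2.2.2.2.1 t h
theorem d2_P : d2 ∈ P := d2_exists.choose_spec.2.2.2.2.2

theorem d1_supp : Supp d1 0 1 := ⟨fun _ h => d1_a h, fun _ h => d1_e h⟩
theorem d2_supp : Supp d2 0 1 := ⟨fun _ h => d2_a (by linarith), fun _ h => d2_e h⟩

theorem d12 {t : ℝ} (h : 3 / 4 ≤ t) : d1 t = d2 t := by
  rcases le_total t 1 with h1 | h1
  · rw [d1_d (by linarith) h1, d2_d h h1]
  · rw [d1_e h1, d2_e h1]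

/-- The conjugators from the half line to the unit interval. -/
noncomputable def Psi (m : ℕ) : G := d1 ^ m * aff (-1) 0 * ((e 0)⁻¹) ^ m

theorem Psi_P (m : ℕ) : Psi m ∈ P :=
  P.mul_mem (P.mul_mem (P.pow_mem d1_P m) (aff_mem _ Dy.zero))
    (P.pow_mem (P.inv_mem (e_mem Dy.zero)) m)

theorem Psi_zero (t : ℝ) : Psi 0 t = t / 2 := by
  unfold Psi
  rw [pow_zero, pow_zero, one_mul, mul_one, affm1, add_zero]

theorem Psi_succ (m : ℕ) : Psi (m + 1) * e 0 = d1 * Psi m := by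
  unfold Psi
  rw [pow_succ', pow_succ ((e 0)⁻¹)]
  group

theorem Psi_succ' (m : ℕ) (t : ℝ) : Psi (m + 1) t = d1 (Psi m ((e 0)⁻¹ t)) := by
  rw [← mul_ap d1, ← Psi_succ, mul_ap, ap_inv_self]

theorem ei_a {t : ℝ} (h : t ≤ 0) : (e 0)⁻¹ t = t := by
  rw [inv_eq_iff, e_le h]
theorem ei_b {t : ℝ} (h : 0 ≤ t) (h' : t ≤ 2) : (e 0)⁻¹ t = t / 2 := by
  rw [inv_eq_iff, e_mid (by linarith) (by linarith)]; ring
theorem ei_c {t : ℝ} (h : 2 ≤ t) : (e 0)⁻¹ t = t - 1 := by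
  rw [inv_eq_iff, e_ge (by linarith)]; ring

theorem Psi_stable1 (m : ℕ) : ∀ t : ℝ, t ≤ m + 1 → Psi (m + 1) t = Psi m t := by
  induction m with
  | zero =>
    intro t ht
    rw [Nat.cast_zero, zero_add] at ht
    rw [Psi_succ']
    rcases le_total t 0 with h | h
    · rw [ei_a h, Psi_zero, d1_a (by linarith)]
    · rw [ei_b h (by linarith), Psi_zero, Psi_zero, d1_b (by linarith) (by linarith)]
      ring
  | succ m ih =>
    intro t ht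
    push_cast at ht
    have h1 : (e 0)⁻¹ t ≤ m + 1 := by
      rw [← le_iff (e 0), ap_inv_self, e_ge (by
        have : (0 : ℝ) ≤ m := Nat.cast_nonneg m
        linarith)]
      linarith
    rw [Psi_succ' (m + 1) t, ih _ h1, ← Psi_succ']

theorem Psi_stable {m m' : ℕ} (h : m ≤ m') : ∀ t : ℝ, t ≤ m + 1 → Psi m' t = Psi m t := by
  induction m', h using Nat.le_induction with
  | base => intro t _; rfl
  | succ k hk ih =>
    intro t ht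
    have h1 : (m : ℝ) ≤ k := by exact_mod_cast hk
    rw [Psi_stable1 k t (by linarith), ih t ht]

theorem Psi_a {m : ℕ} {t : ℝ} (h : t ≤ 1) : Psi m t = t / 2 := by
  rw [Psi_stable (Nat.zero_le m) t (by simpa using h), Psi_zero]

theorem Psi_b {m : ℕ} (hm : 1 ≤ m) {t : ℝ} (h : 1 ≤ t) (h' : t ≤ 2) : Psi m t = (t + 1) / 4 := by
  rw [Psi_stable hm t (by push_cast; linarith), Psi_succ', ei_b (by linarith) h', Psi_zero,
    d1_c (by linarith) (by linarith)]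
  ring

theorem Psi_c {m : ℕ} (hm : 2 ≤ m) {t : ℝ} (h : 2 ≤ t) (h' : t ≤ 3) : Psi m t = (t + 4) / 8 := by
  rw [Psi_stable hm t (by push_cast; linarith), Psi_succ', ei_c h,
    Psi_b le_rfl (by linarith) (by linarith), d1_d (by linarith) (by linarith)]
  ring

theorem Psi_e1 {m : ℕ} (hm : 2 ≤ m) : Psi (m + 1) * e 1 = d2 * Psi m := by
  apply ext'
  intro t
  rw [mul_ap, mul_ap]
  rcases le_total t 1 with h | h
  · rw [e_le h, Psi_a h, Psi_a h, d2_a (by linarith)]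
  rcases le_total t 2 with h2 | h2
  · rw [e_mid h (by linarith), Psi_b (by omega) h h2]
    rcases le_total t (3 / 2) with h3 | h3
    · rw [Psi_b (by omega) (by linarith) (by linarith), d2_b (by linarith) (by linarith)]
      ring
    · rw [Psi_c (by omega) (by linarith) (by linarith), d2_c (by linarith) (by linarith)]
      ring
  · have h3 : e 1 t = e 0 t := by rw [e_ge (by linarith), e_ge (by linarith)]
    rw [h3, ← mul_ap, Psi_succ, mul_ap]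
    apply d12
    have h4 : Psi m 2 = 3 / 4 := by
      rw [Psi_b (by omega) (by norm_num) le_rfl]
      norm_num
    rw [← h4, le_iff]
    exact h2

theorem Psi_end (m : ℕ) : Psi m (m + 1) = 1 - 1 / 2 ^ (m + 1) := by
  induction m with
  | zero => rw [Nat.cast_zero, zero_add, Psi_zero]; norm_num
  | succ m ih =>
    have h0 : (0 : ℝ) ≤ m := Nat.cast_nonneg m
    have h1 : ((1 : ℝ) / 2 ^ (m + 1)) ≤ 1 / 2 := by
      rw [pow_succ]
      have : (1 : ℝ) ≤ 2 ^ m := one_le_pow₀ (by norm_num)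
      rw [div_le_div_iff₀ (by positivity) (by norm_num)]
      linarith
    have h2 : (0 : ℝ) ≤ 1 / 2 ^ (m + 1) := by positivity
    rw [Psi_succ', Nat.cast_succ, ei_c (by linarith), add_sub_cancel_right, ih,
      d1_d (by linarith) (by linarith), pow_succ (2 : ℝ) (m + 1)]
    field_simp
    ring

theorem Psi_supp {f : G} {a b : ℝ} {m : ℕ} (ha : 0 ≤ a) (hf : Supp f a b) (hb : b ≤ m + 1) :
    Supp (Psi m * f * (Psi m)⁻¹) 0 1 := by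
  refine (hf.conj (Psi m)).mono ?_ ?_
  · have h1 : Psi m 0 = 0 := by rw [Psi_a (by norm_num)]; norm_num
    have h2 := (le_iff (Psi m)).2 ha
    rwa [h1] at h2
  · have h1 := (le_iff (Psi m)).2 hb
    rw [Psi_end] at h1
    have h2 : (0 : ℝ) ≤ 1 / 2 ^ (m + 1) := by positivity
    linarith

/-- The pullback of a subgroup along the conjugators. -/
def Mp (M : Subgroup G) : Subgroup G where
  carrier := {f | (∃ a b, 0 < a ∧ Supp f a b) ∧ ∃ m0 : ℕ, ∀ m ≥ m0, Psi m * f * (Psi m)⁻¹ ∈ M}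
  mul_mem' := by
    rintro f g ⟨⟨a, b, ha, hf⟩, m0, hm0⟩ ⟨⟨a', b', ha', hg⟩, m1, hm1⟩
    refine ⟨⟨min a a', max b b', lt_min ha ha',
      (hf.mono (min_le_left _ _) (le_max_left _ _)).mul
        (hg.mono (min_le_right _ _) (le_max_right _ _))⟩, max m0 m1, fun m hm => ?_⟩
    have h1 := M.mul_mem (hm0 m ((le_max_left _ _).trans hm)) (hm1 m ((le_max_right _ _).trans hm))
    have h2 : Psi m * f * (Psi m)⁻¹ * (Psi m * g * (Psi m)⁻¹) = Psi m * (f * g) * (Psi m)⁻¹ := by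
      group
    rwa [h2] at h1
  one_mem' := ⟨⟨1, 1, one_pos, Supp.one⟩, 0, fun m _ => by
    rw [mul_one, mul_inv_cancel]
    exact M.one_mem⟩
  inv_mem' := by
    rintro f ⟨⟨a, b, ha, hf⟩, m0, hm0⟩
    refine ⟨⟨a, b, ha, hf.inv⟩, m0, fun m hm => ?_⟩
    have h1 := M.inv_mem (hm0 m hm)
    have h2 : (Psi m * f * (Psi m)⁻¹)⁻¹ = Psi m * f⁻¹ * (Psi m)⁻¹ := by group
    rwa [h2] at h1

theorem mem_Mp {M : Subgroup G} {f : G} : f ∈ Mp M ↔ (∃ a b, 0 < a ∧ Supp f a b) ∧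
    ∃ m0 : ℕ, ∀ m ≥ m0, Psi m * f * (Psi m)⁻¹ ∈ M := Iff.rfl

theorem Mp_conj {M : Subgroup G} {E D : G} (hE : E 0 = 0)
    (hrel : ∀ m ≥ 2, Psi (m + 1) * E = D * Psi m)
    (hM : ∀ f ∈ M, Supp f 0 1 → D * f * D⁻¹ ∈ M) : ∀ f ∈ Mp M, E * f * E⁻¹ ∈ Mp M := by
  rintro f ⟨⟨a, b, ha, hf⟩, m0, hm0⟩
  refine ⟨⟨E a, E b, ?_, hf.conj E⟩, m0 + 3 + ⌈b⌉₊, fun m hm => ?_⟩
  · have := (lt_iff E).2 ha
    rwa [hE] at this
  · obtain ⟨k, rfl⟩ := Nat.exists_eq_succ_of_ne_zero (show m ≠ 0 by omega)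
    have h1 : b ≤ (k : ℝ) + 1 := by
      have h2 := Nat.le_ceil b
      have h3 : (⌈b⌉₊ : ℝ) ≤ k := by exact_mod_cast (by omega : ⌈b⌉₊ ≤ k)
      linarith
    have h4 := hM _ (hm0 k (by omega)) (Psi_supp ha.le hf h1)
    have h5 : Psi (k + 1) * (E * f * E⁻¹) * (Psi (k + 1))⁻¹
        = (Psi (k + 1) * E) * f * (Psi (k + 1) * E)⁻¹ := by group
    rw [Nat.succ_eq_add_one, h5, hrel k (by omega)]
    have h6 : D * Psi k * f * (D * Psi k)⁻¹ = D * (Psi k * f * (Psi k)⁻¹) * D⁻¹ := by group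
    rw [h6]
    exact h4

theorem Mp_conj' {M : Subgroup G} {E D : G} (hE : E 0 = 0)
    (hrel : ∀ m ≥ 2, Psi (m + 1) * E = D * Psi m)
    (hM : ∀ f ∈ M, Supp f 0 1 → D⁻¹ * f * D ∈ M) : ∀ f ∈ Mp M, E⁻¹ * f * E ∈ Mp M := by
  rintro f ⟨⟨a, b, ha, hf⟩, m0, hm0⟩
  have hc := hf.conj E⁻¹
  rw [inv_inv] at hc
  refine ⟨⟨E⁻¹ a, E⁻¹ b, ?_, hc⟩, m0 + 3 + ⌈b⌉₊, fun m hm => ?_⟩
  · rw [← lt_iff E, hE, ap_inv_self]
    exact ha
  · have h1 : b ≤ ((m + 1 : ℕ) : ℝ) + 1 := by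
      have h2 := Nat.le_ceil b
      have h3 : (⌈b⌉₊ : ℝ) ≤ m := by exact_mod_cast (by omega : ⌈b⌉₊ ≤ m)
      push_cast
      linarith
    have h4 := hM _ (hm0 (m + 1) (by omega)) (Psi_supp ha.le hf h1)
    have h5 : D⁻¹ * Psi (m + 1) = Psi m * E⁻¹ := by
      have := hrel m (by omega)
      rw [inv_mul_eq_iff_eq_mul, ← mul_assoc, ← this, mul_inv_cancel_right]
    have h6 : D⁻¹ * (Psi (m + 1) * f * (Psi (m + 1))⁻¹) * D
        = (D⁻¹ * Psi (m + 1)) * f * (D⁻¹ * Psi (m + 1))⁻¹ := by group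
    rw [h6, h5] at h4
    have h7 : Psi m * (E⁻¹ * f * E) * (Psi m)⁻¹ = Psi m * E⁻¹ * f * (Psi m * E⁻¹)⁻¹ := by group
    rw [h7]
    exact h4

theorem pull {f : G} {r : ℝ} (hr : 0 < r) (hf : Supp f r (1 - r)) : ∃ m1 : ℕ,
    (∃ a b, 0 < a ∧ Supp ((Psi m1)⁻¹ * f * Psi m1) a b) ∧
    ∀ m ≥ m1, Psi m * ((Psi m1)⁻¹ * f * Psi m1) * (Psi m)⁻¹ = f := by
  obtain ⟨m1, hm1⟩ := exists_pow_lt_of_lt_one hr (show (1 / 2 : ℝ) < 1 by norm_num)
  have h0 : (1 : ℝ) / 2 ^ (m1 + 1) ≤ r := by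
    have h1 : ((1 : ℝ) / 2) ^ (m1 + 1) ≤ (1 / 2) ^ m1 :=
      pow_le_pow_of_le_one (by norm_num) (by norm_num) (by omega)
    rw [div_pow, one_pow] at h1
    linarith
  have h1 : (Psi m1)⁻¹ (1 - r) ≤ (m1 : ℝ) + 1 := by
    rw [← le_iff (Psi m1), ap_inv_self, Psi_end]
    linarith
  have h2 : 0 < (Psi m1)⁻¹ r := by
    rw [← lt_iff (Psi m1), ap_inv_self, Psi_a (by norm_num)]
    simpa using hr
  have h3 := hf.conj (Psi m1)⁻¹
  rw [inv_inv] at h3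
  refine ⟨m1, ⟨_, _, h2, h3⟩, fun m hm => ?_⟩
  rw [conj_congr (B := Psi m1) h3 (fun t _ ht => Psi_stable hm t (by linarith))]
  group

theorem thm2 (M : Subgroup G) (k1 : ∀ f ∈ M, Supp f 0 1 → d1 * f * d1⁻¹ ∈ M)
    (k2 : ∀ f ∈ M, Supp f 0 1 → d1⁻¹ * f * d1 ∈ M) (k3 : ∀ f ∈ M, Supp f 0 1 → d2 * f * d2⁻¹ ∈ M)
    (k4 : ∀ f ∈ M, Supp f 0 1 → d2⁻¹ * f * d2 ∈ M) {g : G} (hg : g ∈ M) (hg1 : g ≠ 1)
    {r : ℝ} (hr : 0 < r) (hgr : Supp g r (1 - r)) {h : G} (hP : h ∈ P) {r' : ℝ} (hr' : 0 < r')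
    (hh : Supp h r' (1 - r')) : h ∈ M := by
  obtain ⟨m1, hm1, hm1'⟩ := pull hr hgr
  obtain ⟨m2, ⟨a, b, ha, hab⟩, hm2'⟩ := pull hr' hh
  have hgM : (Psi m1)⁻¹ * g * Psi m1 ∈ Mp M := by
    refine ⟨hm1, m1, fun m hm => ?_⟩
    rw [hm1' m hm]
    exact hg
  have hg1' : (Psi m1)⁻¹ * g * Psi m1 ≠ 1 := by
    intro hcon
    apply hg1
    have := hm1' m1 le_rfl
    rw [hcon, mul_one, mul_inv_cancel] at this
    exact this.symm
  have e00 : e 0 0 = 0 := e_le le_rfl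
  have e10 : e 1 0 = 0 := e_le zero_le_one
  have hrel0 : ∀ m ≥ 2, Psi (m + 1) * e 0 = d1 * Psi m := fun m _ => Psi_succ m
  have hrel1 : ∀ m ≥ 2, Psi (m + 1) * e 1 = d2 * Psi m := fun m hm => Psi_e1 hm
  have hk : (Psi m2)⁻¹ * h * Psi m2 ∈ Mp M :=
    thm1 (Mp M) (fun f hf => hf.1) (Mp_conj e00 hrel0 k1) (Mp_conj' e00 hrel0 k2)
      (Mp_conj e10 hrel1 k3) (Mp_conj' e10 hrel1 k4) hgM hg1'
      (P.mul_mem (P.mul_mem (P.inv_mem (Psi_P m2)) hP) (Psi_P m2)) ha hab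
  obtain ⟨_, m0, hm0⟩ := hk
  have := hm0 (max m0 m2) (le_max_left _ _)
  rwa [hm2' _ (le_max_right _ _)] at this

end Spr
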