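import Pool.Agent.X276.Spr.D

namespace Spr

open Filter Topology Set

/-- Translation by `a` near minus infinity and by `-a` near infinity. -/
def Tr (f : G) (a : ℝ) : Prop := ∃ R : ℝ, (∀ t ≤ -R, f t = t + a) ∧ (∀ t, R ≤ t → f t = t - a)

theorem Tr.mul {f g : G} {a b : ℝ} (hf : Tr f a) (hg : Tr g b) : Tr (f * g) (a + b) := by
  obtain ⟨R, h1, h2⟩ := hf
  obtain ⟨S, h3, h4⟩ := hg
  have hb := abs_le.1 (le_refl |b|)
  have hR := abs_le.1 (le_refl |R|)
  have hS := abs_le.1 (le_refl |S|)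
  refine ⟨|R| + |S| + |b|, fun t ht => ?_, fun t ht => ?_⟩
  · have : 0 ≤ |R| := abs_nonneg R
    have : 0 ≤ |S| := abs_nonneg S
    have : 0 ≤ |b| := abs_nonneg b
    rw [mul_ap, h3 t (by linarith), h1 _ (by linarith)]
    ring
  · have : 0 ≤ |R| := abs_nonneg R
    have : 0 ≤ |S| := abs_nonneg S
    have : 0 ≤ |b| := abs_nonneg b
    rw [mul_ap, h4 t (by linarith), h2 _ (by linarith)]
    ring

theorem Tr.inv {f : G} {a : ℝ} (hf : Tr f a) : Tr f⁻¹ (-a) := by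
  obtain ⟨R, h1, h2⟩ := hf
  have ha := abs_le.1 (le_refl |a|)
  refine ⟨R + |a|, fun t ht => ?_, fun t ht => ?_⟩
  · rw [inv_eq_iff, h1 _ (by linarith)]
    ring
  · rw [inv_eq_iff, h2 _ (by linarith)]
    ring

theorem Tr.one : Tr 1 0 := ⟨0, fun t _ => by rw [one_ap, add_zero], fun t _ => by
  rw [one_ap, sub_zero]⟩

theorem Tr.unique {f : G} {a b : ℝ} (ha : Tr f a) (hb : Tr f b) : a = b := by
  obtain ⟨R, h1, _⟩ := ha
  obtain ⟨S, h3, _⟩ := hb
  have e1 := h1 (-(max R S)) (by linarith [le_max_left R S])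
  have e2 := h3 (-(max R S)) (by linarith [le_max_right R S])
  linarith

theorem Tr.zpow {f : G} (hf : Tr f 1) (k : ℤ) : Tr (f ^ k) k := by
  have hn : ∀ n : ℕ, Tr (f ^ n) n := by
    intro n
    induction n with
    | zero => simpa using Tr.one
    | succ n ih =>
      rw [pow_succ]
      push_cast
      exact ih.mul hf
  obtain ⟨n, rfl | rfl⟩ := k.eq_nat_or_neg
  · rw [zpow_natCast]
    exact_mod_cast hn n
  · rw [zpow_neg, zpow_natCast]
    push_cast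
    exact (hn n).inv

theorem Tr.supp {f : G} (hf : Tr f 0) : ∃ R, 0 < R ∧ Supp f (-R) R := by
  obtain ⟨R, h1, h2⟩ := hf
  refine ⟨|R| + 1, by positivity, fun t ht => ?_, fun t ht => ?_⟩
  · rw [h1 t (by linarith [le_abs_self R]), add_zero]
  · rw [h2 t (by linarith [le_abs_self R]), sub_zero]

theorem Supp.tr {f : G} {a b : ℝ} (hf : Supp f a b) : Tr f 0 := by
  have ha := abs_le.1 (le_refl |a|)
  have hb := abs_le.1 (le_refl |b|)
  have : 0 ≤ |a| := abs_nonneg a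
  have : 0 ≤ |b| := abs_nonneg b
  refine ⟨|a| + |b|, fun t ht => ?_, fun t ht => ?_⟩
  · rw [hf.1 t (by linarith), add_zero]
  · rw [hf.2 t (by linarith), sub_zero]

theorem y_exists {x : G} (hx : x ∈ P) {p ε : ℝ} (hp : Dy p) (hε : Dy ε) (h0 : 0 < ε)
    (hxp : p + ε < x (p - ε)) {u v : G} (hu : u ∈ P) (hv : v ∈ P) (hus : Supp u (p - ε) (p + ε))
    (hvs : Supp v (p - ε) (p + ε)) : ∃ y ∈ P, Tr y 1 ∧ y p = p ∧ (∀ t, p < t → y t < t) ∧
      (∀ t < p, t < y t) ∧ (∀ t, p - ε ≤ t → t ≤ p + ε → (x⁻¹ * y * x * x) t = u t) ∧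
      (∀ t, p - ε ≤ t → t ≤ p + ε → (x⁻¹ * y * y * x * x * x) t = v t) := by
  set α := p - ε with hα
  set β := p + ε with hβ
  have hαβ : α < β := by rw [hα, hβ]; linarith
  have DA : Dy α := hp.sub hε
  have DB : Dy β := hp.add hε
  set α1 := x α with hα1
  set β1 := x β with hβ1
  set α2 := x α1 with hα2
  set β2 := x β1 with hβ2
  set α3 := x α2 with hα3
  set β3 := x β2 with hβ3
  have DA1 : Dy α1 := P_dy hx DA
  have DB1 : Dy β1 := P_dy hx DB
  have DA2 : Dy α2 := P_dy hx DA1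
  have DB2 : Dy β2 := P_dy hx DB1
  have DA3 : Dy α3 := P_dy hx DA2
  have DB3 : Dy β3 := P_dy hx DB2
  have l01 : β < α1 := hxp
  have l1 : α1 < β1 := (lt_iff x).2 hαβ
  have l12 : β1 < α2 := (lt_iff x).2 l01
  have l2 : α2 < β2 := (lt_iff x).2 l1
  have l23 : β2 < α3 := (lt_iff x).2 l12
  have l3 : α3 < β3 := (lt_iff x).2 l2
  have hpα : α < p := by rw [hα]; linarith
  have hpβ : p < β := by rw [hβ]; linarith
  have Dm : Dy ((α1 + p) / 2) := (DA1.add hp).div2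
  obtain ⟨φ1, φ1P, φ1a, φ1b⟩ := interp DA1 DA2 Dm DA1 (by linarith) (by linarith)
  obtain ⟨φ2, φ2P, φ2a, φ2b⟩ := interp DB2 DA3 DB1 DA2 (by linarith) (by linarith)
  obtain ⟨φ3, φ3P, φ3a, φ3b⟩ := interp DB3 (DB3.add Dy.one) DB2 DB3 (by linarith) (by linarith)
  -- endpoints
  have uα : u α = α := hus.1 α le_rfl
  have uβ : u β = β := hus.2 β le_rfl
  have vα : v α = α := hvs.1 α le_rfl
  have vβ : v β = β := hvs.2 β le_rfl
  have g3 : ∀ s, (x * u * x⁻¹ * x⁻¹) (x (x s)) = x (u s) := by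
    intro s
    simp only [mul_ap, inv_ap_self]
  have g5 : ∀ s, (x * x * u⁻¹ * v * x⁻¹ * x⁻¹ * x⁻¹) (x (x (x s))) = x (x (u⁻¹ (v s))) := by
    intro s
    simp only [mul_ap, inv_ap_self]
  have uiα : u⁻¹ α = α := by rw [inv_eq_iff, uα]
  have uiβ : u⁻¹ β = β := by rw [inv_eq_iff, uβ]
  have g3P : x * u * x⁻¹ * x⁻¹ ∈ P :=
    P.mul_mem (P.mul_mem (P.mul_mem hx hu) (P.inv_mem hx)) (P.inv_mem hx)
  have g5P : x * x * u⁻¹ * v * x⁻¹ * x⁻¹ * x⁻¹ ∈ P :=
    P.mul_mem (P.mul_mem (P.mul_mem (P.mul_mem (P.mul_mem (P.mul_mem hx hx) (P.inv_mem hu)) hv)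
      (P.inv_mem hx)) (P.inv_mem hx)) (P.inv_mem hx)
  obtain ⟨Q1, a1, b1, c1⟩ := paste_exists (aff 0 1) (aff (-1) (p / 2)) (p - 2) (by
    rw [aff0, affm1]; ring)
  obtain ⟨Q2, a2, b2, c2⟩ := paste_exists Q1 φ1 α1 (by
    rw [b1 _ (by linarith), affm1, φ1a]; ring)
  obtain ⟨Q3, a3, b3, c3⟩ := paste_exists Q2 (x * u * x⁻¹ * x⁻¹) α2 (by
    rw [b2 _ (by linarith), φ1b, hα2, hα1, g3, uα])
  obtain ⟨Q4, a4, b4, c4⟩ := paste_exists Q3 φ2 β2 (by
    rw [b3 _ (by linarith), φ2a, hβ2, hβ1, g3, uβ])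
  obtain ⟨Q5, a5, b5, c5⟩ := paste_exists Q4 (x * x * u⁻¹ * v * x⁻¹ * x⁻¹ * x⁻¹) α3 (by
    rw [b4 _ (by linarith), φ2b, hα3, hα2, hα1, g5, vα, uiα])
  obtain ⟨Q6, a6, b6, c6⟩ := paste_exists Q5 φ3 β3 (by
    rw [b5 _ (by linarith), φ3a, hβ3, hβ2, hβ1, g5, vβ, uiβ])
  obtain ⟨y, a7, b7, c7⟩ := paste_exists Q6 (aff 0 (-1)) (β3 + 1) (by
    rw [b6 _ (by linarith), φ3b, aff0]; ring)
  have r0 : ∀ t, t ≤ p - 2 → y t = t + 1 := by
    intro t ht
    rw [a7 t (by linarith), a6 t (by linarith), a5 t (by linarith), a4 t (by linarith),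
      a3 t (by linarith), a2 t (by linarith), a1 t ht, aff0]
  have r1 : ∀ t, p - 2 ≤ t → t ≤ α1 → y t = (t + p) / 2 := by
    intro t ht ht'
    rw [a7 t (by linarith), a6 t (by linarith), a5 t (by linarith), a4 t (by linarith),
      a3 t (by linarith), a2 t (by linarith), b1 t ht, affm1]
    ring
  have r2 : ∀ t, α1 ≤ t → t ≤ α2 → y t = φ1 t := by
    intro t ht ht'
    rw [a7 t (by linarith), a6 t (by linarith), a5 t (by linarith), a4 t (by linarith),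
      a3 t (by linarith), b2 t ht]
  have r3 : ∀ t, α2 ≤ t → t ≤ β2 → y t = (x * u * x⁻¹ * x⁻¹) t := by
    intro t ht ht'
    rw [a7 t (by linarith), a6 t (by linarith), a5 t (by linarith), a4 t (by linarith), b3 t ht]
  have r4 : ∀ t, β2 ≤ t → t ≤ α3 → y t = φ2 t := by
    intro t ht ht'
    rw [a7 t (by linarith), a6 t (by linarith), a5 t (by linarith), b4 t ht]
  have r5 : ∀ t, α3 ≤ t → t ≤ β3 → y t = (x * x * u⁻¹ * v * x⁻¹ * x⁻¹ * x⁻¹) t := by
    intro t ht ht'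
    rw [a7 t (by linarith), a6 t (by linarith), b5 t ht]
  have r6 : ∀ t, β3 ≤ t → t ≤ β3 + 1 → y t = φ3 t := by
    intro t ht ht'
    rw [a7 t (by linarith), b6 t ht]
  have r7 : ∀ t, β3 + 1 ≤ t → y t = t - 1 := by
    intro t ht
    rw [b7 t ht, aff0]
    ring
  have yP : y ∈ P := by
    have D2 : Dy (p - 2) := hp.sub Dy.two
    exact c7 (c6 (c5 (c4 (c3 (c2 (c1 (aff_mem _ Dy.one) (aff_mem _ hp.div2) D2) φ1P DA1) g3P DA2)
      φ2P DB2) g5P DA3) φ3P DB3) (aff_mem _ Dy.one.neg) (DB3.add Dy.one)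
  -- values at the marks
  have yα1 : y α1 < α1 := by rw [r1 α1 (by linarith) le_rfl]; linarith
  have yα2 : y α2 = α1 := by rw [r2 α2 (by linarith) le_rfl, φ1b]
  have yβ2 : y β2 = β1 := by rw [r4 β2 le_rfl (by linarith), φ2a]
  have yα3 : y α3 = α2 := by rw [r4 α3 (by linarith) le_rfl, φ2b]
  have yβ3 : y β3 = β2 := by rw [r6 β3 le_rfl (by linarith), φ3a]
  have yβ4 : y (β3 + 1) = β3 := by rw [r7 _ le_rfl]; ring
  have hup : ∀ {s t : ℝ}, t ≤ s → y t ≤ y s := fun h => (le_iff y).2 h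
  refine ⟨y, yP, ?_, ?_, ?_, ?_, ?_, ?_⟩
  · have hp' := abs_le.1 (le_refl |p - 2|)
    have hb' := abs_le.1 (le_refl |β3 + 1|)
    have : 0 ≤ |p - 2| := abs_nonneg _
    have : 0 ≤ |β3 + 1| := abs_nonneg _
    refine ⟨|p - 2| + |β3 + 1|, fun t ht => r0 t (by linarith), fun t ht => r7 t (by linarith)⟩
  · rw [r1 p (by linarith) (by linarith)]
    ring
  · intro t ht
    rcases le_total t α1 with h | h
    · rw [r1 t (by linarith) h]; linarith
    rcases h.eq_or_lt with h | h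
    · rw [← h]; exact yα1
    rcases le_total t α2 with h2 | h2
    · exact lt_of_le_of_lt ((hup h2).trans_eq yα2) h
    rcases le_total t β2 with h3 | h3
    · have := (hup h3).trans_eq yβ2
      linarith
    rcases le_total t α3 with h4 | h4
    · have := (hup h4).trans_eq yα3
      linarith
    rcases le_total t β3 with h5 | h5
    · have := (hup h5).trans_eq yβ3
      linarith
    rcases h5.eq_or_lt with h5 | h5
    · rw [← h5, yβ3]; linarith
    rcases le_total t (β3 + 1) with h6 | h6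
    · exact lt_of_le_of_lt ((hup h6).trans_eq yβ4) h5
    · rw [r7 t h6]; linarith
  · intro t ht
    rcases le_total t (p - 2) with h | h
    · rw [r0 t h]; linarith
    · rw [r1 t h (by linarith)]; linarith
  · intro t ht ht'
    have m1 : α2 ≤ x (x t) := (le_iff x).2 ((le_iff x).2 ht)
    have m2 : x (x t) ≤ β2 := (le_iff x).2 ((le_iff x).2 ht')
    rw [mul_ap, mul_ap, mul_ap, r3 _ m1 m2, g3, inv_ap_self]
  · intro t ht ht'
    have m1 : α3 ≤ x (x (x t)) := (le_iff x).2 ((le_iff x).2 ((le_iff x).2 ht))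
    have m2 : x (x (x t)) ≤ β3 := (le_iff x).2 ((le_iff x).2 ((le_iff x).2 ht'))
    have m3 := hvs.maps ht ht'
    have m4 := hus.inv.maps m3.1 m3.2
    have m5 : α2 ≤ x (x (u⁻¹ (v t))) := (le_iff x).2 ((le_iff x).2 m4.1)
    have m6 : x (x (u⁻¹ (v t))) ≤ β2 := (le_iff x).2 ((le_iff x).2 m4.2)
    rw [mul_ap, mul_ap, mul_ap, mul_ap, mul_ap, r5 _ m1 m2, g5, r3 _ m5 m6, g3, inv_ap_self,
      ap_inv_self]

end Spr
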