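import Pool.Agent.X276.Spr.E1

namespace Spr

open Filter Topology Set

theorem pow_succ_ap (y : G) (n : ℕ) (t : ℝ) : (y ^ (n + 1)) t = y ((y ^ n) t) := by
  rw [pow_succ', mul_ap]

theorem contract_up {y : G} {p : ℝ} (hp : y p = p) (h1 : ∀ t, p < t → y t < t) {t η : ℝ}
    (ht : p ≤ t) (hη : 0 < η) : ∃ n0 : ℕ, ∀ n ≥ n0, (y ^ n) t < p + η := by
  have hge : ∀ n : ℕ, p ≤ (y ^ n) t := by
    intro n
    induction n with
    | zero => simpa using ht
    | succ n ih =>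
      rw [pow_succ_ap]
      calc p = y p := hp.symm
        _ ≤ _ := (le_iff y).2 ih
  have hle : ∀ s, p ≤ s → y s ≤ s := by
    intro s hs
    rcases hs.eq_or_lt with h | h
    · rw [← h, hp]
    · exact (h1 s h).le
  have hanti : Antitone (fun n : ℕ => (y ^ n) t) := by
    apply antitone_nat_of_succ_le
    intro n
    rw [pow_succ_ap]
    exact hle _ (hge n)
  have hbdd : BddBelow (Set.range (fun n : ℕ => (y ^ n) t)) := ⟨p, by
    rintro _ ⟨n, rfl⟩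
    exact hge n⟩
  have hlim := tendsto_atTop_ciInf hanti hbdd
  set L := ⨅ n : ℕ, (y ^ n) t with hL
  have hlim1 := (tend_nhds y L).comp hlim
  have hlim2 : Tendsto (fun n : ℕ => (y ^ (n + 1)) t) atTop (𝓝 L) := (tendsto_add_atTop_iff_nat 1).2 hlim
  have heq : y L = L := by
    refine tendsto_nhds_unique (hlim1.congr fun n => ?_) hlim2
    rw [pow_succ_ap]
    rfl
  have hpL : p ≤ L := le_ciInf hge
  have hLp : L = p := by
    rcases hpL.eq_or_lt with h | h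
    · exact h.symm
    · exact absurd heq (h1 L h).ne
  rw [hLp] at hlim
  have := hlim.eventually (gt_mem_nhds (show p < p + η by linarith))
  exact eventually_atTop.1 this

theorem contract_down {y : G} {p : ℝ} (hp : y p = p) (h1 : ∀ t, t < p → t < y t) {t η : ℝ}
    (ht : t ≤ p) (hη : 0 < η) : ∃ n0 : ℕ, ∀ n ≥ n0, p - η < (y ^ n) t := by
  have hge : ∀ n : ℕ, (y ^ n) t ≤ p := by
    intro n
    induction n with
    | zero => simpa using ht
    | succ n ih =>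
      rw [pow_succ_ap]
      calc _ ≤ y p := (le_iff y).2 ih
        _ = p := hp
  have hle : ∀ s, s ≤ p → s ≤ y s := by
    intro s hs
    rcases hs.eq_or_lt with h | h
    · rw [h, hp]
    · exact (h1 s h).le
  have hmono : Monotone (fun n : ℕ => (y ^ n) t) := by
    apply monotone_nat_of_le_succ
    intro n
    rw [pow_succ_ap]
    exact hle _ (hge n)
  have hbdd : BddAbove (Set.range (fun n : ℕ => (y ^ n) t)) := ⟨p, by
    rintro _ ⟨n, rfl⟩
    exact hge n⟩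
  have hlim := tendsto_atTop_ciSup hmono hbdd
  set L := ⨆ n : ℕ, (y ^ n) t with hL
  have hlim1 := (tend_nhds y L).comp hlim
  have hlim2 : Tendsto (fun n : ℕ => (y ^ (n + 1)) t) atTop (𝓝 L) := (tendsto_add_atTop_iff_nat 1).2 hlim
  have heq : y L = L := by
    refine tendsto_nhds_unique (hlim1.congr fun n => ?_) hlim2
    rw [pow_succ_ap]
    rfl
  have hpL : L ≤ p := ciSup_le hge
  have hLp : L = p := by
    rcases hpL.eq_or_lt with h | h
    · exact h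
    · exact absurd heq (h1 L h).ne'
  rw [hLp] at hlim
  have := hlim.eventually (lt_mem_nhds (show p - η < p by linarith))
  exact eventually_atTop.1 this

/-- Conjugation by a high power of a contraction squeezes supports. -/
theorem squeeze {y : G} {p : ℝ} (hp : y p = p) (h1 : ∀ t, p < t → y t < t)
    (h2 : ∀ t, t < p → t < y t) {f : G} (hf : Tr f 0) {η : ℝ} (hη : 0 < η) :
    ∃ n : ℕ, Supp (y ^ n * f * (y ^ n)⁻¹) (p - η) (p + η) := by
  obtain ⟨R, hR, hs⟩ := hf.supp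
  have hs' : Supp f (min (-R) p) (max R p) := hs.mono (min_le_left _ _) (le_max_left _ _)
  obtain ⟨n1, hn1⟩ := contract_up hp h1 (le_max_right R p) hη
  obtain ⟨n2, hn2⟩ := contract_down hp h2 (min_le_right (-R) p) hη
  refine ⟨max n1 n2, (hs'.conj _).mono (hn2 _ (le_max_right _ _)).le (hn1 _ (le_max_left _ _)).le⟩

theorem inv_agree {κ δ : G} {a b : ℝ} (hδ : Supp δ a b) (h : ∀ t, a ≤ t → t ≤ b → κ t = δ t) :
    ∀ t, a ≤ t → t ≤ b → κ⁻¹ t = δ⁻¹ t := by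
  intro t ht ht'
  have h1 := hδ.inv.maps ht ht'
  rw [inv_eq_iff, h _ h1.1 h1.2, ap_inv_self]

/-- The group whose spread is one. -/
def K : Subgroup G where
  carrier := {f | f ∈ P ∧ ∃ a : ℤ, Tr f a}
  mul_mem' := by
    rintro f g ⟨hf, a, ha⟩ ⟨hg, b, hb⟩
    refine ⟨P.mul_mem hf hg, a + b, ?_⟩
    push_cast
    exact ha.mul hb
  one_mem' := ⟨P.one_mem, 0, by simpa using Tr.one⟩
  inv_mem' := by
    rintro f ⟨hf, a, ha⟩
    refine ⟨P.inv_mem hf, -a, ?_⟩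
    push_cast
    exact ha.inv

theorem mem_K {f : G} : f ∈ K ↔ f ∈ P ∧ ∃ a : ℤ, Tr f a := Iff.rfl

theorem conj_closed {H : Subgroup G} {l d κ : G} {a b : ℝ} (hl0 : l 0 = a) (hl1 : l 1 = b)
    (hd : Supp d 0 1) (hκ : κ ∈ H) (h : ∀ t, a ≤ t → t ≤ b → κ t = (l * d * l⁻¹) t) {f : G}
    (hf : l * f * l⁻¹ ∈ H) (hfs : Supp f 0 1) :
    l * (d * f * d⁻¹) * l⁻¹ ∈ H ∧ l * (d⁻¹ * f * d) * l⁻¹ ∈ H := by
  have hF := hfs.conj l
  have hδ := hd.conj l
  rw [hl0, hl1] at hF hδ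
  constructor
  · have h1 := H.mul_mem (H.mul_mem hκ hf) (H.inv_mem hκ)
    rw [conj_congr hF h] at h1
    have h2 : l * d * l⁻¹ * (l * f * l⁻¹) * (l * d * l⁻¹)⁻¹ = l * (d * f * d⁻¹) * l⁻¹ := by group
    rwa [h2] at h1
  · have h1 := H.mul_mem (H.mul_mem (H.inv_mem hκ) hf) (H.inv_mem (H.inv_mem hκ))
    rw [conj_congr hF (inv_agree hδ h)] at h1
    have h2 : (l * d * l⁻¹)⁻¹ * (l * f * l⁻¹) * (l * d * l⁻¹)⁻¹⁻¹ = l * (d⁻¹ * f * d) * l⁻¹ := by
      group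
    rwa [h2] at h1

theorem core {x : G} (hx : x ∈ K) {t0 : ℝ} (ht0 : t0 < x t0) :
    ∃ y ∈ K, ∀ H : Subgroup G, x ∈ H → y ∈ H → K ≤ H := by
  obtain ⟨hxP, a0, hxT⟩ := hx
  obtain ⟨p, hpD, hp1, hp2⟩ := dy_dense ht0
  have hp3 : p < x p := hp2.trans ((lt_iff x).2 hp1)
  obtain ⟨m, -, hm1, hm2⟩ := dy_dense hp3
  have hm3 : x⁻¹ m < p := by rw [← lt_iff x, ap_inv_self]; exact hm2
  obtain ⟨n, hn⟩ := exists_pow_lt_of_lt_one (lt_min (sub_pos.2 hm3) (sub_pos.2 hm1))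
    (show (1 / 2 : ℝ) < 1 by norm_num)
  have p2 : (0 : ℝ) < 2 ^ n := by positivity
  have hn' : ((1 : ℝ) / 2) ^ n = 1 / 2 ^ n := by rw [div_pow, one_pow]
  rw [hn'] at hn
  have hn1 : (1 : ℝ) / 2 ^ n < p - x⁻¹ m := hn.trans_le (min_le_left _ _)
  have hn2 : (1 : ℝ) / 2 ^ n < m - p := hn.trans_le (min_le_right _ _)
  set ε : ℝ := 1 / 2 ^ n / 2 with hε
  have hεpos : 0 < ε := by rw [hε]; positivity
  have hεlt : ε < 1 / 2 ^ n := by rw [hε]; linarith [show (0 : ℝ) < 1 / 2 ^ n by positivity]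
  have hε2 : (1 : ℝ) / 2 ^ n = 2 * ε := by rw [hε]; ring
  have Dε : Dy ε := by
    rw [hε]
    refine Dy.div2 ?_
    have := Dy.zpow (-(n : ℤ))
    rwa [zpow_neg, zpow_natCast, ← one_div] at this
  have hxp : p + ε < x (p - ε) := by
    have h1 : x⁻¹ m < p - ε := by linarith
    rw [← lt_iff x, ap_inv_self] at h1
    linarith
  -- the chart from the unit interval to the small interval
  let l : G := aff (-(n : ℤ)) (p - ε)
  have lP : l ∈ P := aff_mem _ (hpD.sub Dε)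
  have hl : ∀ t, l t = 2 * ε * t + (p - ε) := by
    intro t
    show aff (-(n : ℤ)) (p - ε) t = _
    rw [aff_apply, zpow_neg, zpow_natCast, ← one_div, hε2]
  have hl0 : l 0 = p - ε := by rw [hl]; ring
  have hl1 : l 1 = p + ε := by rw [hl]; ring
  have s1 := d1_supp.conj l
  have s2 := d2_supp.conj l
  rw [hl0, hl1] at s1 s2
  obtain ⟨y, yP, yT, yp, yup, ydn, hk1, hk2⟩ := y_exists hxP hpD Dε hεpos hxp
    (P.mul_mem (P.mul_mem lP d1_P) (P.inv_mem lP)) (P.mul_mem (P.mul_mem lP d2_P) (P.inv_mem lP))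
    s1 s2
  refine ⟨y, ⟨yP, 1, by simpa using yT⟩, fun H hxH hyH => ?_⟩
  have κ1H : x⁻¹ * y * x * x ∈ H := H.mul_mem (H.mul_mem (H.mul_mem (H.inv_mem hxH) hyH) hxH) hxH
  have κ2H : x⁻¹ * y * y * x * x * x ∈ H :=
    H.mul_mem (H.mul_mem (H.mul_mem (H.mul_mem (H.mul_mem (H.inv_mem hxH) hyH) hyH) hxH) hxH) hxH
  -- the subgroup on the unit interval
  let M : Subgroup G := H.comap (MulAut.conj l).toMonoidHom
  have hM : ∀ f, f ∈ M ↔ l * f * l⁻¹ ∈ H := fun f => Iff.rfl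
  -- a small element
  have hwT : Tr (x * y * x⁻¹ * y⁻¹) 0 := by
    have h1 := ((hxT.mul yT).mul hxT.inv).mul yT.inv
    have h2 : (a0 : ℝ) + 1 + -(a0 : ℝ) + -1 = 0 := by ring
    rwa [h2] at h1
  have hwH : x * y * x⁻¹ * y⁻¹ ∈ H :=
    H.mul_mem (H.mul_mem (H.mul_mem hxH hyH) (H.inv_mem hxH)) (H.inv_mem hyH)
  have hw1 : x * y * x⁻¹ * y⁻¹ ≠ 1 := by
    intro hcon
    have h1 : x * y = y * x := by
      have h2 : x * y * x⁻¹ * y⁻¹ * (y * x) = x * y := by group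
      rw [← h2, hcon, one_mul]
    have h2 : x (y p) = y (x p) := by rw [← mul_ap, h1, mul_ap]
    rw [yp] at h2
    exact absurd h2.symm (yup _ hp3).ne
  have hquarter : ∀ f : G, Supp f (p - ε / 2) (p + ε / 2) →
      Supp (l⁻¹ * f * l) (1 / 4) (1 - 1 / 4) := by
    intro f hf
    have h1 := hf.conj l⁻¹
    rw [inv_inv] at h1
    have h2 : l⁻¹ (p - ε / 2) = 1 / 4 := by rw [inv_eq_iff, hl]; ring
    have h3 : l⁻¹ (p + ε / 2) = 1 - 1 / 4 := by rw [inv_eq_iff, hl]; ring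
    rwa [h2, h3] at h1
  have hback : ∀ f : G, l * (l⁻¹ * f * l) * l⁻¹ = f := by
    intro f
    group
  obtain ⟨n1, hn1'⟩ := squeeze yp yup ydn hwT (half_pos hεpos)
  have hgH : y ^ n1 * (x * y * x⁻¹ * y⁻¹) * (y ^ n1)⁻¹ ∈ H :=
    H.mul_mem (H.mul_mem (H.pow_mem hyH _) hwH) (H.inv_mem (H.pow_mem hyH _))
  have hg1 : l⁻¹ * (y ^ n1 * (x * y * x⁻¹ * y⁻¹) * (y ^ n1)⁻¹) * l ≠ 1 := by
    intro hcon
    apply hw1
    have h1 : x * y * x⁻¹ * y⁻¹ = (y ^ n1)⁻¹ * (l * (l⁻¹ * (y ^ n1 * (x * y * x⁻¹ * y⁻¹) *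
      (y ^ n1)⁻¹) * l) * l⁻¹) * y ^ n1 := by group
    rw [h1, hcon]
    group
  have hsmall : ∀ f ∈ P, Supp f (p - ε / 2) (p + ε / 2) → f ∈ H := by
    intro f hfP hf
    have h1 := thm2 M
      (fun f hf hfs => (conj_closed hl0 hl1 d1_supp κ1H hk1 hf hfs).1)
      (fun f hf hfs => (conj_closed hl0 hl1 d1_supp κ1H hk1 hf hfs).2)
      (fun f hf hfs => (conj_closed hl0 hl1 d2_supp κ2H hk2 hf hfs).1)
      (fun f hf hfs => (conj_closed hl0 hl1 d2_supp κ2H hk2 hf hfs).2)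
      (g := l⁻¹ * (y ^ n1 * (x * y * x⁻¹ * y⁻¹) * (y ^ n1)⁻¹) * l)
      (by rw [hM, hback]; exact hgH) hg1 (by norm_num) (hquarter _ hn1')
      (h := l⁻¹ * f * l) (P.mul_mem (P.mul_mem (P.inv_mem lP) hfP) lP) (by norm_num)
      (hquarter _ hf)
    rwa [hM, hback] at h1
  have hN : ∀ f ∈ P, Tr f 0 → f ∈ H := by
    intro f hfP hf
    obtain ⟨n2, hn2'⟩ := squeeze yp yup ydn hf (half_pos hεpos)
    have h1 := hsmall _ (P.mul_mem (P.mul_mem (P.pow_mem yP n2) hfP)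
      (P.inv_mem (P.pow_mem yP n2))) hn2'
    have h2 := H.mul_mem (H.mul_mem (H.inv_mem (H.pow_mem hyH n2)) h1) (H.pow_mem hyH n2)
    have h3 : (y ^ n2)⁻¹ * (y ^ n2 * f * (y ^ n2)⁻¹) * y ^ n2 = f := by group
    rwa [h3] at h2
  rintro f ⟨hfP, k, hfT⟩
  have h1 := hN (f * (y ^ k)⁻¹) (P.mul_mem hfP (P.inv_mem (P.zpow_mem yP k))) (by
    have h2 := hfT.mul (yT.zpow k).inv
    rwa [add_neg_cancel] at h2)
  have h2 := H.mul_mem h1 (H.zpow_mem hyH k)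
  rwa [inv_mul_cancel_right] at h2

theorem one_spread {x : G} (hx : x ∈ K) (hx1 : x ≠ 1) :
    ∃ y ∈ K, ∀ H : Subgroup G, x ∈ H → y ∈ H → K ≤ H := by
  have : ∃ t, x t ≠ t := by
    by_contra hcon
    push Not at hcon
    exact hx1 (ext' hcon)
  obtain ⟨t, ht⟩ := this
  rcases lt_or_gt_of_ne ht with h2 | h2
  · have h3 : t < x⁻¹ t := by
      rw [← lt_iff x, ap_inv_self]
      exact h2
    obtain ⟨y, hy, h4⟩ := core (K.inv_mem hx) h3
    exact ⟨y, hy, fun H h5 h6 => h4 H (H.inv_mem h5) h6⟩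
  · exact core hx h2

end Spr
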